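import Pool.Agent.H543Z.PM.Dim

/-!
The analytic part: a short map from the square with holes to a space that is a countable union of
pieces of lines cannot almost preserve distances.
-/

open Set Filter Topology Metric MeasureTheory
open scoped ENNReal NNReal Pointwise

namespace Pool.Agent.H543Z.PM

variable {M : Type} [MetricSpace M]

theorem line_bound (φ : ℝ → M) {ε : ℝ}
    (h1 : ∀ s ∈ Icc (0 : ℝ) 1, ∀ t ∈ Icc (0 : ℝ) 1, dist (φ s) (φ t) ≤ |s - t|)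
    (h2 : 1 - ε ≤ dist (φ 0) (φ 1)) :
    volume {s | s ∈ Ioo (0 : ℝ) 1 ∧ ∀ᶠ t in 𝓝[>] (0 : ℝ), dist (φ s) (φ (s + t)) ≤ 2 / 3 * t}
      ≤ ENNReal.ofReal (3 * ε) := by
  let g : ℝ → ℝ := fun s => s - dist (φ 0) (φ s)
  have hg : MonotoneOn g (Icc 0 1) := by
    intro s hs t ht hst
    have h3 := dist_triangle (φ 0) (φ s) (φ t)
    have h4 := h1 s hs t ht
    rw [abs_of_nonpos (by linarith)] at h4
    simp only [g]; linarith
  have hg' : MonotoneOn g (uIcc 0 1) := by rwa [uIcc_of_le zero_le_one]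
  have hint : IntegrableOn (deriv g) (Ioo 0 1) volume :=
    (intervalIntegrable_iff_integrableOn_Ioo_of_le zero_le_one).1 hg'.intervalIntegrable_deriv
  have hle : ∫ x in Ioo (0 : ℝ) 1, deriv g x ≤ ε := by
    have h3 := hg'.intervalIntegral_deriv_mem_uIcc
    have h4 : g 0 ≤ g 1 := hg (left_mem_Icc.2 zero_le_one) (right_mem_Icc.2 zero_le_one) zero_le_one
    rw [uIcc_of_le (by linarith), intervalIntegral.integral_of_le zero_le_one,
      integral_Ioc_eq_integral_Ioo] at h3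
    refine h3.2.trans ?_
    simp only [g, dist_self]; linarith
  have hnn : 0 ≤ᵐ[volume.restrict (Ioo (0 : ℝ) 1)] deriv g := by
    rw [Filter.EventuallyLE, ae_restrict_iff' measurableSet_Ioo]
    refine Eventually.of_forall fun x hx => ?_
    rw [← derivWithin_of_mem_nhds (Icc_mem_nhds hx.1 hx.2)]
    exact hg.derivWithin_nonneg
  have hm := mul_meas_ge_le_integral_of_nonneg hnn hint (1 / 3)
  have hfin : (volume.restrict (Ioo (0 : ℝ) 1)) {x | 1 / 3 ≤ deriv g x} ≠ ⊤ := measure_ne_top _ _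
  have hb : (volume.restrict (Ioo (0 : ℝ) 1)) {x | 1 / 3 ≤ deriv g x} ≤
      ENNReal.ofReal (3 * ε) := by
    rw [← ofReal_measureReal hfin]
    exact ENNReal.ofReal_le_ofReal (by linarith)
  refine le_trans ?_ hb
  rw [Measure.restrict_apply' measurableSet_Ioo]
  refine measure_mono_ae ?_
  filter_upwards [hg.ae_differentiableWithinAt_of_mem] with s hs
  rintro ⟨hs1, hs2⟩
  refine ⟨?_, hs1⟩
  have hd : DifferentiableAt ℝ g s :=
    (hs (Ioo_subset_Icc_self hs1)).differentiableAt (Icc_mem_nhds hs1.1 hs1.2)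
  refine ge_of_tendsto hd.hasDerivAt.tendsto_slope_zero_right ?_
  filter_upwards [hs2, self_mem_nhdsWithin] with t ht ht0
  have ht0 : 0 < t := ht0
  have h3 := dist_triangle (φ 0) (φ s) (φ (s + t))
  rw [smul_eq_mul, ← div_eq_inv_mul, le_div_iff₀ ht0]
  simp only [g]; linarith

theorem vol_le_of_sections {B : Set (ℝ × ℝ)} (hB : MeasurableSet B) {c : ℝ≥0∞}
    (h1 : ∀ x ∈ B, x.2 ∈ Icc (0 : ℝ) 1) (h2 : ∀ y, volume ((fun s => (s, y)) ⁻¹' B) ≤ c) :
    volume B ≤ c := by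
  rw [Measure.volume_eq_prod, Measure.prod_apply_symm hB]
  calc ∫⁻ y, volume ((fun s => (s, y)) ⁻¹' B) ≤ ∫⁻ y, (Icc (0 : ℝ) 1).indicator (fun _ => c) y := by
        refine lintegral_mono fun y => ?_
        by_cases hy : y ∈ Icc (0 : ℝ) 1
        · rw [indicator_of_mem hy]; exact h2 y
        · have : (fun s => (s, y)) ⁻¹' B = ∅ := eq_empty_of_forall_notMem fun s hs => hy (h1 _ hs)
          simp [this]
    _ = c := by
        rw [lintegral_indicator measurableSet_Icc]; simp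

theorem vol_swap_le (B : Set (ℝ × ℝ)) : volume (Prod.swap ⁻¹' B) ≤ volume B := by
  have h : MeasurePreserving (Prod.swap : ℝ × ℝ → ℝ × ℝ) volume volume := by
    rw [Measure.volume_eq_prod]; exact Measure.measurePreserving_swap
  exact h.measure_preimage_le B

theorem slow_bound (π : ℝ × ℝ → M) {G : Set ℝ} (hG : IsClosed G) (hG1 : G ⊆ Icc 0 1) {ε : ℝ}
    (hc : ContinuousOn π (Icc 0 1 ×ˢ G))
    (h1 : ∀ b ∈ G, ∀ s ∈ Icc (0 : ℝ) 1, ∀ t ∈ Icc (0 : ℝ) 1, dist (π (s, b)) (π (t, b)) ≤ |s - t|)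
    (h2 : ∀ b ∈ G, 1 - ε ≤ dist (π (0, b)) (π (1, b))) :
    volume {x : ℝ × ℝ | x.1 ∈ Ioo (0 : ℝ) 1 ∧ x.2 ∈ G ∧
      ∀ᶠ t in 𝓝[>] (0 : ℝ), dist (π x) (π (x.1 + t, x.2)) ≤ 2 / 3 * t}
      ≤ ENNReal.ofReal (3 * ε) := by
  let D : ℕ → Set (ℝ × ℝ) := fun n => Icc 0 (1 - 1 / ((n : ℝ) + 1)) ×ˢ G
  have hD : ∀ n, IsClosed (D n) := fun n => isClosed_Icc.prod hG
  let C : ℕ → Set (ℝ × ℝ) := fun n => D n ∩ ⋂ t ∈ Ioo (0 : ℝ) (1 / ((n : ℝ) + 1)),
    {x ∈ D n | dist (π x) (π (x.1 + t, x.2)) ≤ 2 / 3 * t}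
  have hC : ∀ n, IsClosed (C n) := by
    intro n
    have hn : (0 : ℝ) < 1 / ((n : ℝ) + 1) := by positivity
    refine (hD n).inter (isClosed_biInter fun t ht => (hD n).isClosed_le ?_ continuousOn_const)
    refine continuous_dist.comp_continuousOn (ContinuousOn.prodMk (hc.mono ?_) ?_)
    · exact fun x hx => ⟨⟨hx.1.1, by linarith [hx.1.2]⟩, hx.2⟩
    · refine hc.comp (f := fun x : ℝ × ℝ => (x.1 + t, x.2)) (by fun_prop) ?_
      exact fun x hx => ⟨⟨by linarith [hx.1.1, ht.1], by linarith [hx.1.2, ht.2]⟩, hx.2⟩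
  let B : Set (ℝ × ℝ) := (Prod.fst ⁻¹' Ioo (0 : ℝ) 1) ∩ ⋃ n, C n
  have hB : MeasurableSet B := (measurableSet_Ioo.preimage measurable_fst).inter
    (MeasurableSet.iUnion fun n => (hC n).measurableSet)
  refine le_trans (measure_mono (t := B) ?_) (vol_le_of_sections hB ?_ ?_)
  · rintro x ⟨hx1, hx2, hx3⟩
    refine ⟨hx1, ?_⟩
    obtain ⟨u, hu, hsub⟩ := (mem_nhdsGT_iff_exists_Ioo_subset).1 hx3
    obtain ⟨n, hn⟩ := exists_nat_one_div_lt (lt_min hu (sub_pos.2 hx1.2))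
    have hxD : x ∈ D n := ⟨⟨hx1.1.le, by linarith [(lt_min_iff.1 hn).2]⟩, hx2⟩
    refine mem_iUnion.2 ⟨n, hxD, mem_iInter₂.2 fun t ht => ⟨hxD, hsub ⟨ht.1, ?_⟩⟩⟩
    exact ht.2.trans (lt_min_iff.1 hn).1
  · rintro x ⟨-, hx⟩
    obtain ⟨n, hn⟩ := mem_iUnion.1 hx
    exact hG1 hn.1.2
  · intro y
    by_cases hy : y ∈ G
    · refine le_trans (measure_mono ?_) (line_bound (fun s => π (s, y)) (h1 y hy) (h2 y hy))
      rintro s ⟨hs1, hs2⟩
      obtain ⟨n, hn⟩ := mem_iUnion.1 hs2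
      refine ⟨hs1, ?_⟩
      have hn0 : (0 : ℝ) < 1 / ((n : ℝ) + 1) := by positivity
      filter_upwards [Ioo_mem_nhdsGT hn0] with t ht
      exact (mem_iInter₂.1 hn.2 t ht).2
    · have : (fun s => (s, y)) ⁻¹' B = ∅ := by
        refine eq_empty_of_forall_notMem fun s hs => hy ?_
        obtain ⟨n, hn⟩ := mem_iUnion.1 hs.2
        exact hn.1.2
      simp [this]

theorem ae_metric_deriv {X A : Set (ℝ × ℝ)} (hA : A ⊆ X) (π : ℝ × ℝ → M) (C : ℝ≥0)
    (hπ : ∀ a ∈ X, ∀ b ∈ X, dist (π a) (π b) ≤ C * dist a b) (f : M → ℝ)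
    (hf : ∀ a ∈ A, ∀ b ∈ A, dist (π a) (π b) = |f (π a) - f (π b)|) :
    ∀ᵐ x, x ∈ A → ∃ ℓ : ℝ × ℝ →L[ℝ] ℝ, ∀ v : ℝ × ℝ, ∀ ε > 0, ∀ᶠ t in 𝓝[>] (0 : ℝ),
      x + t • v ∈ X → abs (dist (π x) (π (x + t • v)) - t * |ℓ v|) ≤ ε * t := by
  have hL : LipschitzOnWith C (fun a => f (π a)) A := by
    refine LipschitzOnWith.of_dist_le_mul fun a ha b hb => ?_
    rw [Real.dist_eq, ← hf a ha b hb]
    exact hπ a (hA ha) b (hA hb)
  obtain ⟨F, hF, hFe⟩ := hL.extend_real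
  filter_upwards [hF.ae_differentiableAt (μ := volume),
    ae_imp_of_ae_restrict (Besicovitch.ae_tendsto_measure_inter_div volume A)] with x hx1 hx2 hxA
  refine ⟨fderiv ℝ F x, fun v ε hε => ?_⟩
  set ℓ := fderiv ℝ F x with hℓ
  have hC : (0 : ℝ) ≤ C := C.2
  obtain ⟨η, hη0, hη1, hη⟩ : ∃ η : ℝ, 0 < η ∧ η ≤ 1 ∧ η * (C + ‖ℓ‖ + ‖v‖ + 1) ≤ ε := by
    have hp : 0 < (C : ℝ) + ‖ℓ‖ + ‖v‖ + 1 := by positivity
    refine ⟨min 1 (ε / (C + ‖ℓ‖ + ‖v‖ + 1)), lt_min one_pos (div_pos hε hp), min_le_left _ _, ?_⟩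
    rw [← le_div_iff₀ hp]
    exact min_le_right _ _
  have B₁ : ∀ᶠ r in 𝓝[>] (0 : ℝ), (A ∩ ({x} + r • closedBall v η)).Nonempty :=
    Measure.eventually_nonempty_inter_smul_of_density_one volume A x (hx2 hxA) _
      measurableSet_closedBall (measure_closedBall_pos volume v hη0).ne'
  have B₂ : ∀ᶠ r in 𝓝[>] (0 : ℝ), {x} + r • closedBall v η ⊆
      {y | ‖F y - F x - ℓ (y - x)‖ ≤ η * ‖y - x‖} := by
    apply nhdsWithin_le_nhds
    exact eventually_singleton_add_smul_subset isBounded_closedBall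
      (hx1.hasFDerivAt.isLittleO.def hη0)
  filter_upwards [B₁, B₂, self_mem_nhdsWithin] with t ⟨y, hyA, hy⟩ hsub ht0 hxt
  have ht0 : 0 < t := ht0
  have hy2 := hsub hy
  obtain ⟨a, az, ya⟩ : ∃ a, a ∈ closedBall v η ∧ y = x + t • a := by
    simp only [mem_smul_set, image_add_left, mem_preimage, singleton_add] at hy
    rcases hy with ⟨a, az, ha⟩
    exact ⟨a, az, by simp only [ha, add_neg_cancel_left]⟩
  have hav : ‖a - v‖ ≤ η := mem_closedBall_iff_norm.1 az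
  have hna : ‖a‖ ≤ ‖v‖ + 1 := by
    have := norm_add_le v (a - v)
    rw [add_sub_cancel] at this
    linarith
  have e1 : dist (π x) (π y) = |F y - F x| := by
    rw [hf x hxA y hyA, abs_sub_comm, ← hFe hxA, ← hFe hyA]
  have e2 : dist (π y) (π (x + t • v)) ≤ C * (t * η) := by
    refine (hπ y (hA hyA) _ hxt).trans (mul_le_mul_of_nonneg_left ?_ hC)
    rw [ya, dist_eq_norm, add_sub_add_left_eq_sub, ← smul_sub, norm_smul, Real.norm_eq_abs,
      abs_of_pos ht0]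
    exact mul_le_mul_of_nonneg_left hav ht0.le
  have e3 : |F y - F x - t * ℓ a| ≤ η * (t * (‖v‖ + 1)) := by
    simp only [mem_ofPred_eq, ya, add_sub_cancel_left, map_smul, smul_eq_mul, norm_smul,
      Real.norm_eq_abs, abs_of_pos ht0] at hy2
    rw [ya]
    refine hy2.trans (mul_le_mul_of_nonneg_left (mul_le_mul_of_nonneg_left hna ht0.le) hη0.le)
  have e4 : |ℓ a - ℓ v| ≤ ‖ℓ‖ * η := by
    rw [← map_sub, ← Real.norm_eq_abs]
    exact (ℓ.le_opNorm _).trans (mul_le_mul_of_nonneg_left hav (norm_nonneg _))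
  have t1 := dist_triangle (π x) (π y) (π (x + t • v))
  have t2 := dist_triangle (π x) (π (x + t • v)) (π y)
  rw [dist_comm (π (x + t • v)) (π y)] at t2
  have t3 := abs_abs_sub_abs_le_abs_sub (F y - F x) (t * ℓ a)
  have t4 := abs_abs_sub_abs_le_abs_sub (ℓ a) (ℓ v)
  rw [abs_mul, abs_of_pos ht0] at t3
  have t5 := abs_le.1 (t3.trans e3)
  have t6 := abs_le.1 (t4.trans e4)
  have t7 : t * (η * (C + ‖ℓ‖ + ‖v‖ + 1)) ≤ t * ε := mul_le_mul_of_nonneg_left hη ht0.le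
  have t8 := mul_le_mul_of_nonneg_left t6.1 ht0.le
  have t9 := mul_le_mul_of_nonneg_left t6.2 ht0.le
  rw [abs_le]
  constructor <;> nlinarith

end Pool.Agent.H543Z.PM
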