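import Mathlib

/-!
Definitions for the question on length spaces and inverse limits of Minkowski polyhedra.
-/

open Set Filter Topology

namespace Pool.Agent.H543Z.PM

/-- A length space: the distance of two points is the infimum of the lengths (total variations)
of the continuous curves joining them. -/
def IsLengthSpace (X : Type) [MetricSpace X] : Prop :=
  ∀ x y : X, edist x y = ⨅ γ : Path x y, eVariationOn γ univ

/-- Lebesgue covering dimension at most `d`: every finite open cover has a finite open refinement
in which every point lies in at most `d + 1` members. -/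
def CoveringDimLE (X : Type) [TopologicalSpace X] (d : ℕ) : Prop :=
  ∀ 𝒰 : Set (Set X), 𝒰.Finite → (∀ U ∈ 𝒰, IsOpen U) → ⋃₀ 𝒰 = univ →
    ∃ 𝒱 : Set (Set X), 𝒱.Finite ∧ (∀ V ∈ 𝒱, IsOpen V) ∧ ⋃₀ 𝒱 = univ ∧
      (∀ V ∈ 𝒱, ∃ U ∈ 𝒰, V ⊆ U) ∧ ∀ x : X, {V ∈ 𝒱 | x ∈ V}.ncard ≤ d + 1

/-- A nonempty space has Lebesgue covering dimension exactly `d`. -/
def HasCoveringDim (X : Type) [TopologicalSpace X] (d : ℕ) : Prop :=
  Nonempty X ∧ CoveringDimLE X d ∧ ∀ e < d, ¬ CoveringDimLE X e

/-- The subset `σ` of `M` is isometric to a simplex (the convex hull of finitely many affinely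
independent points) in a finite-dimensional real normed space. Both usual readings are allowed:
`σ` carries either the metric of `M` restricted to it, or its induced length metric (the infimum
of the lengths of the curves inside `σ`). -/
def IsMinkowskiSimplex {M : Type} [MetricSpace M] (σ : Set M) : Prop :=
  ∃ (V : Type) (_ : NormedAddCommGroup V) (_ : NormedSpace ℝ V) (_ : FiniteDimensional ℝ V)
    (t : Finset V), AffineIndependent ℝ ((↑) : t → V) ∧
      ∃ e : σ ≃ convexHull ℝ (t : Set V),
        (∀ a b : σ, edist (e a) (e b) = edist a b) ∨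
          ∀ a b : σ, edist (e a) (e b) = ⨅ γ : Path a b, eVariationOn γ univ

/-- A Minkowski `d`-polyhedron: a length space with a finite triangulation (a homeomorphism from
the space of a finite geometric simplicial complex) by simplices of dimension at most `d`, each of
which is isometric to a simplex in some Minkowski space. -/
def IsMinkowskiPolyhedron (M : Type) [MetricSpace M] (d : ℕ) : Prop :=
  IsLengthSpace M ∧
    ∃ (N : ℕ) (K : Geometry.SimplicialComplex ℝ (EuclideanSpace ℝ (Fin N))) (φ : K.space ≃ₜ M),
      K.faces.Finite ∧ ∀ s ∈ K.faces, s.card ≤ d + 1 ∧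
        IsMinkowskiSimplex
          (φ '' {p : K.space | (p : EuclideanSpace ℝ (Fin N)) ∈
            convexHull ℝ (s : Set (EuclideanSpace ℝ (Fin N)))})

/-- A pro-Minkowski space of rank at most `d`: a compact metric space that is isometric to the
inverse limit of a sequence of Minkowski `d`-polyhedra with 1-Lipschitz bonding maps, that is, to
the set of threads with the limit of the distances of the coordinates as distance. -/
def IsProMinkowski (X : Type) [MetricSpace X] (d : ℕ) : Prop :=
  CompactSpace X ∧
    ∃ (M : ℕ → Type) (_ : ∀ n, MetricSpace (M n)) (f : ∀ n, M (n + 1) → M n),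
      (∀ n, IsMinkowskiPolyhedron (M n) d) ∧ (∀ n, LipschitzWith 1 (f n)) ∧
        ∃ e : X ≃ {x : ∀ n, M n // ∀ n, f n (x (n + 1)) = x n},
          ∀ x y : X, Tendsto (fun n => dist ((e x).1 n) ((e y).1 n)) atTop (𝓝 (dist x y))

end Pool.Agent.H543Z.PM
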