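import Pool.Agent.H543Z.PM.Holes

/-!
Existence of a dense family of holes, and the covering dimension of the remaining set.
-/

open Set Filter Topology Metric
open scoped ENNReal NNReal

namespace Pool.Agent.H543Z.PM

theorem exists_holes : ∃ H : Holes, Dense H.Xᶜ := by
  let c : ℕ → ℝ × ℝ := TopologicalSpace.denseSeq (ℝ × ℝ)
  have hc : DenseRange c := TopologicalSpace.denseRange_denseSeq (ℝ × ℝ)
  let c1 : ℕ × ℕ → ℝ := fun k => (c k.1).1
  let c2 : ℕ × ℕ → ℝ := fun k => (c k.1).2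
  let r : ℕ × ℕ → ℝ := fun k => (1 / 128) * (1 / 2) ^ k.1 * (1 / 2) ^ k.2
  have r_pos : ∀ k, 0 < r k := fun k => by simp only [r]; positivity
  have sum_r : ∑' k, ENNReal.ofReal (2 * r k) ≤ ENNReal.ofReal (1 / 16) := by
    have e : ∀ k : ℕ × ℕ, ENNReal.ofReal (2 * r k) =
        ENNReal.ofReal (1 / 64) * (2⁻¹ : ℝ≥0∞) ^ k.1 * (2⁻¹ : ℝ≥0∞) ^ k.2 := by
      intro k
      have e2 : (2⁻¹ : ℝ≥0∞) = ENNReal.ofReal (1 / 2) := by
        rw [one_div, ENNReal.ofReal_inv_of_pos (by norm_num)]; simp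
      rw [e2, ← ENNReal.ofReal_pow (by norm_num), ← ENNReal.ofReal_pow (by norm_num),
        ← ENNReal.ofReal_mul (by norm_num), ← ENNReal.ofReal_mul (by positivity)]
      congr 1
      simp only [r]; ring
    simp_rw [e]
    rw [ENNReal.tsum_prod']
    simp only [ENNReal.tsum_mul_left, ENNReal.tsum_mul_right, ENNReal.tsum_geometric_two]
    have e2 : (2 : ℝ≥0∞) = ENNReal.ofReal 2 := by simp
    rw [e2, ← ENNReal.ofReal_mul (by norm_num), ← ENNReal.ofReal_mul (by norm_num)]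
    exact ENNReal.ofReal_le_ofReal (by norm_num)
  let T : Set (ℕ × ℕ) := {k | (r k ≤ c1 k ∧ c1 k + r k ≤ 1) ∧ (r k ≤ c2 k ∧ c2 k + r k ≤ 1)}
  let R : ℕ × ℕ → ℕ × ℕ → Prop := fun k l => r k + r l ≤ |c1 k - c1 l| + |c2 k - c2 l|
  have hRsymm : ∀ k l, R k l → R l k := by
    intro k l h
    simp only [R] at h ⊢
    rw [abs_sub_comm (c1 l), abs_sub_comm (c2 l)]
    linarith
  obtain ⟨S, hS⟩ := zorn_subset {S : Set (ℕ × ℕ) | S ⊆ T ∧ S.Pairwise R} (by
    intro ch hch hchain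
    refine ⟨⋃₀ ch, ⟨sUnion_subset fun s hs => (hch hs).1, ?_⟩, fun s hs => subset_sUnion_of_mem hs⟩
    exact (pairwise_sUnion hchain.directedOn).2 fun s hs => (hch hs).2)
  let H : Holes :=
    { S := S, c1 := c1, c2 := c2, r := r, r_pos := r_pos, sum_r := sum_r
      in1 := fun k hk => (hS.prop.1 hk).1
      in2 := fun k hk => (hS.prop.1 hk).2
      disj := fun k hk l hl hkl => hS.prop.2 hk hl hkl }
  refine ⟨H, Metric.dense_iff.2 fun p ε hε => ?_⟩
  by_cases hball : ∀ q ∈ ball p ε, q.1 ∈ Icc (0 : ℝ) 1 ∧ q.2 ∈ Icc (0 : ℝ) 1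
  swap
  · push Not at hball
    obtain ⟨q, hq, hq'⟩ := hball
    exact ⟨q, hq, fun hX => hq' hX.1 hX.2.1⟩
  obtain ⟨i, hi⟩ := hc.exists_dist_lt p (by positivity : 0 < ε / 4)
  obtain ⟨j, hj⟩ := exists_pow_lt_of_lt_one (by positivity : 0 < ε / 4)
    (by norm_num : (1 / 2 : ℝ) < 1)
  let k : ℕ × ℕ := (i, j)
  have hrk : r k < ε / 4 := by
    refine lt_of_le_of_lt ?_ hj
    simp only [r, k]
    have h1 : (1 / 2 : ℝ) ^ i ≤ 1 := pow_le_one₀ (by norm_num) (by norm_num)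
    have h2 : (0 : ℝ) ≤ (1 / 2) ^ j := by positivity
    have h3 : (0 : ℝ) ≤ (1 / 2) ^ i := by positivity
    nlinarith
  have hnear : ∀ q : ℝ × ℝ, |q.1 - c1 k| ≤ r k → |q.2 - c2 k| ≤ r k → q ∈ ball p ε := by
    intro q h1 h2
    have : dist q (c i) ≤ r k := by
      rw [Prod.dist_eq, Real.dist_eq, Real.dist_eq]
      exact max_le h1 h2
    have h3 := dist_triangle q (c i) p
    rw [dist_comm (c i) p] at h3
    rw [mem_ball]; linarith
  have hk0 := r_pos k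
  have hkT : k ∈ T := by
    have h1 := hball (c1 k - r k, c2 k - r k) (hnear _ (by simp [abs_of_pos hk0])
      (by simp [abs_of_pos hk0]))
    have h2 := hball (c1 k + r k, c2 k + r k) (hnear _ (by simp [abs_of_pos hk0])
      (by simp [abs_of_pos hk0]))
    simp only [mem_Icc] at h1 h2
    exact ⟨⟨by linarith [h1.1.1], h2.1.2⟩, ⟨by linarith [h1.2.1], h2.2.2⟩⟩
  by_cases hkS : k ∈ S
  · refine ⟨(c1 k, c2 k), hnear _ (by simp [hk0.le]) (by simp [hk0.le]), fun hX => ?_⟩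
    have := hX.2.2 k hkS
    simp only [H, sub_self, abs_zero, add_zero] at this
    linarith
  · have : ∃ l ∈ S, ¬ R k l := by
      by_contra hcon
      push Not at hcon
      apply hkS
      have hins : insert k S ∈ {S : Set (ℕ × ℕ) | S ⊆ T ∧ S.Pairwise R} :=
        ⟨insert_subset hkT hS.prop.1, hS.prop.2.insert fun l hl _ =>
          ⟨hcon l hl, hRsymm _ _ (hcon l hl)⟩⟩
      exact hS.le_of_ge hins (subset_insert _ _) (mem_insert _ _)
    obtain ⟨l, hl, hkl⟩ := this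
    simp only [R, not_le] at hkl
    have hl0 := r_pos l
    set lam := r k / (r k + r l) with hlam
    have hs : 0 < r k + r l := by linarith
    have lam0 : 0 < lam := div_pos hk0 hs
    have lam1 : 0 < 1 - lam := by
      rw [hlam, sub_pos, div_lt_one hs]; linarith
    have e1 : lam * (r k + r l) = r k := by rw [hlam]; field_simp
    have e2 : (1 - lam) * (r k + r l) = r l := by linarith
    have a1 := abs_nonneg (c1 k - c1 l)
    have a2 := abs_nonneg (c2 k - c2 l)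
    refine ⟨(c1 k - lam * (c1 k - c1 l), c2 k - lam * (c2 k - c2 l)), hnear _ ?_ ?_, fun hX => ?_⟩
    · simp only [sub_sub_cancel_left, abs_neg, abs_mul, abs_of_pos lam0]
      nlinarith
    · simp only [sub_sub_cancel_left, abs_neg, abs_mul, abs_of_pos lam0]
      nlinarith
    · have := hX.2.2 l hl
      simp only [H] at this
      have f1 : c1 k - lam * (c1 k - c1 l) - c1 l = (1 - lam) * (c1 k - c1 l) := by ring
      have f2 : c2 k - lam * (c2 k - c2 l) - c2 l = (1 - lam) * (c2 k - c2 l) := by ring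
      rw [f1, f2, abs_mul, abs_mul, abs_of_pos lam1] at this
      nlinarith

theorem grid_cover (a : ℕ → ℝ) (t : ℝ) (h0 : a 0 ≤ t) :
    ∀ m, t < a (m + 1) → ∃ i ≤ m, a i ≤ t ∧ t < a (i + 1) := by
  intro m
  induction m with
  | zero => intro h; exact ⟨0, le_rfl, h0, h⟩
  | succ m ih =>
    intro h
    by_cases h' : t < a (m + 1)
    · obtain ⟨i, hi, h1⟩ := ih h'
      exact ⟨i, by omega, h1⟩
    · exact ⟨m + 1, le_rfl, not_lt.1 h', h⟩

theorem grid_two (a : ℕ → ℝ) (n : ℕ) (h η : ℝ) (hh : 0 < h) (hη : η ≤ h / 8)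
    (ha : ∀ i ≤ n + 1, |a i - ((i : ℝ) - 1 / 2) * h| < h / 8) (t : ℝ) :
    (∃ i0, ∀ i ≤ n, a i - η < t → t < a (i + 1) + η → i = i0) ∨
      ∃ i0 ≤ n, |t - a (i0 + 1)| < η ∧
        ∀ i ≤ n, a i - η < t → t < a (i + 1) + η → i = i0 ∨ i = i0 + 1 := by
  have key : ∀ i ≤ n, ∀ k ≤ n, a k - η < t → t < a (i + 1) + η → k ≤ i + 1 := by
    intro i hi k hk h1 h2
    have h3 := abs_lt.1 (ha k (by omega))
    have h4 := abs_lt.1 (ha (i + 1) (by omega))
    by_contra hcon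
    have : (i : ℝ) + 2 ≤ k := by exact_mod_cast (by omega : i + 2 ≤ k)
    push_cast at h4
    nlinarith
  by_cases hex : ∃ i ≤ n, ∃ k ≤ n, i < k ∧ (a i - η < t ∧ t < a (i + 1) + η) ∧
      (a k - η < t ∧ t < a (k + 1) + η)
  · right
    obtain ⟨i, hi, k, hk, hik, h1, h2⟩ := hex
    have hk' : k = i + 1 := le_antisymm (key i hi k hk h2.1 h1.2) hik
    subst hk'
    refine ⟨i, hi, abs_lt.2 ⟨by linarith [h2.1], by linarith [h1.2]⟩, fun m hm h3 h4 => ?_⟩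
    have := key i hi m hm h3 h1.2
    have := key m hm (i + 1) hk h2.1 h4
    omega
  · left
    by_cases hne : ∃ i ≤ n, a i - η < t ∧ t < a (i + 1) + η
    · obtain ⟨i0, hi0, h1⟩ := hne
      refine ⟨i0, fun i hi h2 h3 => ?_⟩
      rcases lt_trichotomy i i0 with hlt | heq | hgt
      · exact absurd ⟨i, hi, i0, hi0, hlt, ⟨h2, h3⟩, h1⟩ hex
      · exact heq
      · exact absurd ⟨i0, hi0, i, hi, hgt, h1, ⟨h2, h3⟩⟩ hex
    · exact ⟨0, fun i hi h2 h3 => absurd ⟨i, hi, h2, h3⟩ hne⟩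

/-- A compact subset of the unit square with dense complement has covering dimension at most 1. -/
theorem coveringDimLE_one {X : Set (ℝ × ℝ)} (hX : IsCompact X) (hd : Dense Xᶜ)
    (hK : ∀ p ∈ X, p.1 ∈ Icc (0 : ℝ) 1 ∧ p.2 ∈ Icc (0 : ℝ) 1) : CoveringDimLE X 1 := by
  intro 𝒰 _ hUo hUc
  have : CompactSpace X := isCompact_iff_compactSpace.1 hX
  obtain ⟨δ, hδ, hleb⟩ := lebesgue_number_lemma_of_metric_sUnion (isCompact_univ (X := X)) hUo
    (by rw [hUc])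
  obtain ⟨n, hn⟩ := exists_nat_one_div_lt (by positivity : 0 < δ / 2)
  set h : ℝ := 1 / ((n : ℝ) + 1) with hh
  have hpos : 0 < h := by positivity
  have hnh : ((n : ℝ) + 1) * h = 1 := by rw [hh]; field_simp
  have hXo : IsOpen Xᶜ := hX.isClosed.isOpen_compl
  have hdense : Dense (⋂ ij : ℕ × ℕ,
      (fun w : (ℕ → ℝ) × (ℕ → ℝ) => (w.1 ij.1, w.2 ij.2)) ⁻¹' Xᶜ) := by
    refine dense_iInter_of_isOpen (fun ij => hXo.preimage (by fun_prop)) fun ij => ?_
    exact hd.preimage ((isOpenMap_eval ij.1).prodMap (isOpenMap_eval ij.2))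
  have hbox : IsOpen (⋂ i ∈ Finset.range (n + 3), {w : (ℕ → ℝ) × (ℕ → ℝ) |
      |w.1 i - ((i : ℝ) - 1 / 2) * h| < h / 8 ∧ |w.2 i - ((i : ℝ) - 1 / 2) * h| < h / 8}) := by
    refine isOpen_biInter_finset fun i _ => ?_
    refine IsOpen.and (isOpen_lt ?_ ?_) (isOpen_lt ?_ ?_) <;> fun_prop
  obtain ⟨⟨a, b⟩, hab, hout⟩ := hdense.inter_open_nonempty _ hbox
    ⟨(fun i => ((i : ℝ) - 1 / 2) * h, fun i => ((i : ℝ) - 1 / 2) * h), by
      simp only [mem_iInter, mem_ofPred_eq, sub_self, abs_zero, and_self]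
      intro i _; positivity⟩
  simp only [mem_iInter, mem_ofPred_eq, Finset.mem_range, mem_preimage] at hab hout
  have ha : ∀ i ≤ (n + 1) + 1, |a i - ((i : ℝ) - 1 / 2) * h| < h / 8 :=
    fun i hi => (hab i (by omega)).1
  have hb : ∀ i ≤ (n + 1) + 1, |b i - ((i : ℝ) - 1 / 2) * h| < h / 8 :=
    fun i hi => (hab i (by omega)).2
  have hev : ∀ᶠ η in 𝓝[>] (0 : ℝ), (∀ ij ∈ Finset.range (n + 3) ×ˢ Finset.range (n + 3),
      closedBall (a ij.1, b ij.2) η ⊆ Xᶜ) ∧ η < h / 8 ∧ 0 < η := by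
    refine Eventually.and (nhdsWithin_le_nhds ?_)
      (Eventually.and (nhdsWithin_le_nhds (Iio_mem_nhds (by positivity))) self_mem_nhdsWithin)
    rw [← eventually_iff, Filter.eventually_all_finset]
    intro ij _
    exact eventually_closedBall_subset (hXo.mem_nhds (hout ij))
  obtain ⟨η, hη1, hη2, hη3⟩ := hev.exists
  let V : ℕ × ℕ → Set X := fun ij => {x | (a ij.1 - η < x.1.1 ∧ x.1.1 < a (ij.1 + 1) + η) ∧
    (b ij.2 - η < x.1.2 ∧ x.1.2 < b (ij.2 + 1) + η)}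
  let J : Set (ℕ × ℕ) := {ij | ij.1 ≤ n + 1 ∧ ij.2 ≤ n + 1 ∧ (V ij).Nonempty}
  have hJ : J.Finite := ((finite_le_nat (n + 1)).prod (finite_le_nat (n + 1))).subset
    fun ij hij => ⟨hij.1, hij.2.1⟩
  have hcov : ∀ (a : ℕ → ℝ), (∀ i ≤ (n + 1) + 1, |a i - ((i : ℝ) - 1 / 2) * h| < h / 8) →
      ∀ t ∈ Icc (0 : ℝ) 1, ∃ i ≤ n + 1, a i ≤ t ∧ t < a (i + 1) := by
    intro a ha t ht
    have h0 := abs_lt.1 (ha 0 (by omega))
    have h1 := abs_lt.1 (ha (n + 1 + 1) le_rfl)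
    push_cast at h0 h1
    exact grid_cover a t (by linarith [ht.1, h0.2]) (n + 1) (by nlinarith [ht.2, h1.1])
  have hgap : ∀ (a : ℕ → ℝ), (∀ i ≤ (n + 1) + 1, |a i - ((i : ℝ) - 1 / 2) * h| < h / 8) →
      ∀ i ≤ n + 1, ∀ s t, a i - η < s → s < a (i + 1) + η → a i - η < t → t < a (i + 1) + η →
        |s - t| < δ := by
    intro a ha i hi s t h1 h2 h3 h4
    have h5 := abs_lt.1 (ha i (by omega))
    have h6 := abs_lt.1 (ha (i + 1) (by omega))
    push_cast at h6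
    rw [abs_lt]
    constructor <;> nlinarith
  refine ⟨V '' J, hJ.image _, ?_, ?_, ?_, ?_⟩
  · rintro _ ⟨ij, -, rfl⟩
    refine IsOpen.and (IsOpen.and (isOpen_lt ?_ ?_) (isOpen_lt ?_ ?_))
      (IsOpen.and (isOpen_lt ?_ ?_) (isOpen_lt ?_ ?_)) <;> fun_prop
  · refine eq_univ_of_forall fun x => ?_
    obtain ⟨i, hi, h1, h2⟩ := hcov a ha _ (hK x x.2).1
    obtain ⟨j, hj, h3, h4⟩ := hcov b hb _ (hK x x.2).2
    have hx : x ∈ V (i, j) := ⟨⟨by simp only; linarith, by simp only; linarith⟩,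
      ⟨by simp only; linarith, by simp only; linarith⟩⟩
    exact ⟨V (i, j), ⟨(i, j), ⟨hi, hj, x, hx⟩, rfl⟩, hx⟩
  · rintro _ ⟨ij, ⟨hi, hj, x, hx⟩, rfl⟩
    obtain ⟨U, hU, hxU⟩ := hleb x (mem_univ _)
    refine ⟨U, hU, fun y hy => hxU ?_⟩
    rw [mem_ball, Subtype.dist_eq, Prod.dist_eq, Real.dist_eq, Real.dist_eq]
    exact max_lt (hgap a ha _ hi _ _ hy.1.1 hy.1.2 hx.1.1 hx.1.2)
      (hgap b hb _ hj _ _ hy.2.1 hy.2.2 hx.2.1 hx.2.2)
  · intro x
    have two : ∀ p q : ℕ × ℕ, (∀ ij ∈ J, x ∈ V ij → ij = p ∨ ij = q) →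
        {W ∈ V '' J | x ∈ W}.ncard ≤ 1 + 1 := by
      intro p q hpq
      have hsub : {W ∈ V '' J | x ∈ W} ⊆ {V p, V q} := by
        rintro _ ⟨⟨ij, hij, rfl⟩, hx⟩
        rcases hpq ij hij hx with rfl | rfl <;> simp
      refine (ncard_le_ncard hsub (toFinite _)).trans ?_
      exact (ncard_insert_le _ _).trans (by simp)
    rcases grid_two a (n + 1) h η hpos hη2.le ha x.1.1 with ⟨i0, h1⟩ | ⟨i0, hi0, h1', h1⟩ <;>
      rcases grid_two b (n + 1) h η hpos hη2.le hb x.1.2 with ⟨j0, h2⟩ | ⟨j0, hj0, h2', h2⟩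
    · refine two (i0, j0) (i0, j0) fun ij hij hx => Or.inl ?_
      exact Prod.ext (h1 _ hij.1 hx.1.1 hx.1.2) (h2 _ hij.2.1 hx.2.1 hx.2.2)
    · refine two (i0, j0) (i0, j0 + 1) fun ij hij hx => ?_
      rcases h2 _ hij.2.1 hx.2.1 hx.2.2 with e | e
      · exact Or.inl (Prod.ext (h1 _ hij.1 hx.1.1 hx.1.2) e)
      · exact Or.inr (Prod.ext (h1 _ hij.1 hx.1.1 hx.1.2) e)
    · refine two (i0, j0) (i0 + 1, j0) fun ij hij hx => ?_
      rcases h1 _ hij.1 hx.1.1 hx.1.2 with e | e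
      · exact Or.inl (Prod.ext e (h2 _ hij.2.1 hx.2.1 hx.2.2))
      · exact Or.inr (Prod.ext e (h2 _ hij.2.1 hx.2.1 hx.2.2))
    · exfalso
      have := hη1 (i0 + 1, j0 + 1) (by simp only [Finset.mem_product, Finset.mem_range]; omega)
      refine this (a := x.1) ?_ x.2
      rw [mem_closedBall, Prod.dist_eq, Real.dist_eq, Real.dist_eq]
      exact max_le h1'.le h2'.le

/-- A preconnected space with two distinct points does not have covering dimension zero. -/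
theorem not_coveringDimLE_zero {Z : Type} [TopologicalSpace Z] [T1Space Z] [PreconnectedSpace Z]
    {p q : Z} (hpq : p ≠ q) : ¬ CoveringDimLE Z 0 := by
  intro h
  obtain ⟨𝒱, hfin, hop, hcov, href, hord⟩ := h {{p}ᶜ, {q}ᶜ} (toFinite _)
    (by rintro U (rfl | rfl) <;> exact isOpen_compl_singleton)
    (by
      refine eq_univ_of_forall fun x => ?_
      by_cases hx : x = p
      · exact ⟨{q}ᶜ, by simp, by simpa [hx] using hpq⟩
      · exact ⟨{p}ᶜ, by simp, by simpa using hx⟩)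
  have huniq : ∀ x, ∀ V ∈ 𝒱, ∀ W ∈ 𝒱, x ∈ V → x ∈ W → V = W := by
    intro x V hV W hW h1 h2
    have hf : {V ∈ 𝒱 | x ∈ V}.Finite := hfin.subset fun _ h => h.1
    exact (ncard_le_one hf).1 (by simpa using hord x) V ⟨hV, h1⟩ W ⟨hW, h2⟩
  obtain ⟨V, hV, hpV⟩ : p ∈ ⋃₀ 𝒱 := by rw [hcov]; exact mem_univ _
  have hclosed : IsClosed V := by
    rw [← isOpen_compl_iff, isOpen_iff_forall_mem_open]
    intro x hx
    obtain ⟨W, hW, hxW⟩ : x ∈ ⋃₀ 𝒱 := by rw [hcov]; exact mem_univ _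
    refine ⟨W, fun y hyW hyV => hx ?_, hop W hW, hxW⟩
    rw [huniq y V hV W hW hyV hyW]; exact hxW
  have hVu : V = univ := (isClopen_iff.1 ⟨hclosed, hop V hV⟩).resolve_left
    (Set.Nonempty.ne_empty ⟨p, hpV⟩)
  obtain ⟨U, hU, hVU⟩ := href V hV
  rcases hU with rfl | rfl
  · exact hVU hpV rfl
  · exact hVU (hVu ▸ mem_univ q) rfl

end Pool.Agent.H543Z.PM
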