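import Pool.Agent.H543Z.PM.Intr

/-!
A square with a sparse dense family of disjoint diamond-shaped holes.
-/

open Set Filter Topology
open scoped ENNReal NNReal

namespace Pool.Agent.H543Z.PM

/-- A family of disjoint open diamonds inside the unit square. -/
structure Holes where
  S : Set (ℕ × ℕ)
  c1 : ℕ × ℕ → ℝ
  c2 : ℕ × ℕ → ℝ
  r : ℕ × ℕ → ℝ
  r_pos : ∀ k, 0 < r k
  sum_r : ∑' k, ENNReal.ofReal (2 * r k) ≤ ENNReal.ofReal (1 / 16)
  in1 : ∀ k ∈ S, r k ≤ c1 k ∧ c1 k + r k ≤ 1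
  in2 : ∀ k ∈ S, r k ≤ c2 k ∧ c2 k + r k ≤ 1
  disj : ∀ k ∈ S, ∀ l ∈ S, k ≠ l → r k + r l ≤ |c1 k - c1 l| + |c2 k - c2 l|

/-- The square without the holes. -/
def Holes.X (H : Holes) : Set (ℝ × ℝ) :=
  {p | p.1 ∈ Icc (0 : ℝ) 1 ∧ p.2 ∈ Icc (0 : ℝ) 1 ∧
    ∀ k ∈ H.S, H.r k ≤ |p.1 - H.c1 k| + |p.2 - H.c2 k|}

/-- The mirror image. -/
def Holes.swap (H : Holes) : Holes where
  S := H.S
  c1 := H.c2
  c2 := H.c1
  r := H.r
  r_pos := H.r_pos
  sum_r := H.sum_r
  in1 := H.in2
  in2 := H.in1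
  disj := fun k hk l hl hkl => by rw [add_comm |_|]; exact H.disj k hk l hl hkl

theorem Holes.mem_swap (H : Holes) (a b : ℝ) : (a, b) ∈ H.swap.X ↔ (b, a) ∈ H.X := by
  simp only [Holes.X, Holes.swap, mem_ofPred_eq]
  constructor
  · rintro ⟨h1, h2, h3⟩
    exact ⟨h2, h1, fun k hk => by rw [add_comm]; exact h3 k hk⟩
  · rintro ⟨h1, h2, h3⟩
    exact ⟨h2, h1, fun k hk => by rw [add_comm]; exact h3 k hk⟩

theorem Holes.isClosed_X (H : Holes) : IsClosed H.X := by
  have : H.X = (Prod.fst ⁻¹' Icc (0 : ℝ) 1) ∩ ((Prod.snd ⁻¹' Icc (0 : ℝ) 1) ∩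
      ⋂ k ∈ H.S, {p : ℝ × ℝ | H.r k ≤ |p.1 - H.c1 k| + |p.2 - H.c2 k|}) := by
    ext p; simp [Holes.X]
  rw [this]
  refine (isClosed_Icc.preimage continuous_fst).inter
    ((isClosed_Icc.preimage continuous_snd).inter ?_)
  exact isClosed_biInter fun k _ => isClosed_le continuous_const (by fun_prop)

theorem Holes.isCompact_X (H : Holes) : IsCompact H.X :=
  (isCompact_Icc.prod isCompact_Icc : IsCompact (Icc (0 : ℝ) 1 ×ˢ Icc (0 : ℝ) 1)).of_isClosed_subset
    H.isClosed_X fun _ hp => ⟨hp.1, hp.2.1⟩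

/-- A horizontal segment can be pushed out of the holes along a 1-Lipschitz graph. -/
theorem Holes.push (H : Holes) {b : ℝ} (hb : b ∈ Icc (0 : ℝ) 1) :
    ∃ g : ℝ → ℝ, (∀ s t, |g s - g t| ≤ |s - t|) ∧ (∀ t ∈ Icc (0 : ℝ) 1, (t, g t) ∈ H.X) ∧
      ∀ t, (t, b) ∈ H.X → g t = b := by
  classical
  let ρ : ℕ × ℕ → ℝ → ℝ := fun k t => H.r k - |t - H.c1 k| - |b - H.c2 k|
  let sg : ℕ × ℕ → ℝ := fun k => if H.c2 k ≤ b then 1 else -1
  have hsg : ∀ k, |sg k| = 1 := by
    intro k; simp only [sg]; split_ifs <;> simp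
  let g : ℝ → ℝ := fun t =>
    if h : ∃ k ∈ H.S, 0 < ρ k t then b + sg h.choose * ρ h.choose t else b
  have key : ∀ t, (∃ k ∈ H.S, 0 < ρ k t ∧ g t = b + sg k * ρ k t) ∨
      ((∀ k ∈ H.S, ρ k t ≤ 0) ∧ g t = b) := by
    intro t
    by_cases h : ∃ k ∈ H.S, 0 < ρ k t
    · left
      exact ⟨h.choose, h.choose_spec.1, h.choose_spec.2, by simp only [g, dif_pos h]⟩
    · right
      refine ⟨fun k hk => not_lt.1 fun h' => h ⟨k, hk, h'⟩, by simp only [g, dif_neg h]⟩
  have hρ : ∀ k s t, ρ k s - ρ k t ≤ |s - t| := by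
    intro k s t
    have := abs_sub_abs_le_abs_sub (t - H.c1 k) (s - H.c1 k)
    have e : t - H.c1 k - (s - H.c1 k) = -(s - t) := by ring
    rw [e, abs_neg] at this
    simp only [ρ]; linarith
  have hρ2 : ∀ k ∈ H.S, ∀ l ∈ H.S, k ≠ l → ∀ s t, ρ k s + ρ l t ≤ |s - t| := by
    intro k hk l hl hkl s t
    have h1 := H.disj k hk l hl hkl
    have h2 : |H.c1 k - H.c1 l| ≤ |s - H.c1 k| + |s - t| + |t - H.c1 l| := by
      have e : H.c1 k - H.c1 l = -(s - H.c1 k) + (s - t) + (t - H.c1 l) := by ring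
      rw [e]
      refine (abs_add_le _ _).trans (add_le_add ((abs_add_le _ _).trans ?_) le_rfl)
      rw [abs_neg]
    have h3 : |H.c2 k - H.c2 l| ≤ |b - H.c2 k| + |b - H.c2 l| := by
      have e : H.c2 k - H.c2 l = -(b - H.c2 k) + (b - H.c2 l) := by ring
      rw [e]
      refine (abs_add_le _ _).trans ?_
      rw [abs_neg]
    simp only [ρ]; linarith
  refine ⟨g, ?_, ?_, ?_⟩
  · intro s t
    rcases key s with ⟨k, hk, hks, es⟩ | ⟨hs, es⟩ <;> rcases key t with ⟨l, hl, hlt, et⟩ | ⟨ht, et⟩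
    · rw [es, et]
      by_cases hkl : k = l
      · subst hkl
        have e : b + sg k * ρ k s - (b + sg k * ρ k t) = sg k * (ρ k s - ρ k t) := by ring
        rw [e, abs_mul, hsg, one_mul, abs_le]
        have := hρ k s t
        have := hρ k t s
        rw [abs_sub_comm t s] at this
        constructor <;> linarith
      · have e : b + sg k * ρ k s - (b + sg l * ρ l t) = sg k * ρ k s + -(sg l * ρ l t) := by ring
        rw [e]
        refine (abs_add_le _ _).trans ?_
        rw [abs_neg, abs_mul, abs_mul, hsg, hsg, one_mul, one_mul, abs_of_pos hks, abs_of_pos hlt]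
        exact hρ2 k hk l hl hkl s t
    · rw [es, et, add_sub_cancel_left, abs_mul, hsg, one_mul, abs_of_pos hks]
      have := hρ k s t
      have := ht k hk
      linarith
    · rw [es, et]
      have e : b - (b + sg l * ρ l t) = -(sg l * ρ l t) := by ring
      rw [e, abs_neg, abs_mul, hsg, one_mul, abs_of_pos hlt]
      have := hρ l t s
      rw [abs_sub_comm t s] at this
      have := hs l hl
      linarith
    · rw [es, et]; simp
  · intro t ht
    rcases key t with ⟨k, hk, hkt, et⟩ | ⟨h0, et⟩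
    · have hval : |g t - H.c2 k| = H.r k - |t - H.c1 k| := by
        rw [et]
        simp only [sg]
        split_ifs with h
        · have h1 : |b - H.c2 k| = b - H.c2 k := abs_of_nonneg (by linarith)
          rw [abs_of_nonneg (by linarith)]
          simp only [ρ, h1]; ring
        · have h1 : |b - H.c2 k| = -(b - H.c2 k) := abs_of_neg (by linarith)
          rw [abs_of_nonpos (by linarith)]
          simp only [ρ, h1]; ring
      have hle : |g t - H.c2 k| ≤ H.r k := by rw [hval]; linarith [abs_nonneg (t - H.c1 k)]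
      have hin := H.in2 k hk
      rw [abs_le] at hle
      refine ⟨ht, ⟨by simp only; linarith, by simp only; linarith⟩, fun l hl => ?_⟩
      simp only
      by_cases hkl : k = l
      · subst hkl; linarith
      · have h1 := H.disj k hk l hl hkl
        have h2 : |H.c1 k - H.c1 l| ≤ |t - H.c1 k| + |t - H.c1 l| := by
          have e : H.c1 k - H.c1 l = -(t - H.c1 k) + (t - H.c1 l) := by ring
          rw [e]
          refine (abs_add_le _ _).trans ?_
          rw [abs_neg]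
        have h3 : |H.c2 k - H.c2 l| ≤ |g t - H.c2 k| + |g t - H.c2 l| := by
          have e : H.c2 k - H.c2 l = -(g t - H.c2 k) + (g t - H.c2 l) := by ring
          rw [e]
          refine (abs_add_le _ _).trans ?_
          rw [abs_neg]
        linarith
    · refine ⟨ht, by rw [et]; exact hb, fun l hl => ?_⟩
      have := h0 l hl
      simp only [et, ρ] at this ⊢
      linarith
  · intro t ht
    rcases key t with ⟨k, hk, hkt, et⟩ | ⟨h0, et⟩
    · have := ht.2.2 k hk
      simp only [ρ] at hkt this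
      linarith
    · exact et

/-- A Lipschitz curve inside a subset bounds the induced length distance. -/
theorem ilen_le_of_curve_sub {E : Type} [MetricSpace E] {X : Set E} (f : ℝ → E) {a b : ℝ}
    (hf : ∀ s t, dist (f s) (f t) ≤ |s - t|) (hX : ∀ t ∈ uIcc a b, f t ∈ X) (x y : X)
    (hx : f a = x) (hy : f b = y) : ilen x y ≤ ENNReal.ofReal |b - a| := by
  classical
  wlog hab : a ≤ b generalizing a b x y
  · rw [ilen_comm, abs_sub_comm]
    exact this (by rwa [uIcc_comm]) y x hy hx (le_of_not_ge hab)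
  rw [uIcc_of_le hab] at hX
  let F : ℝ → X := fun t => if h : f t ∈ X then ⟨f t, h⟩ else x
  have hF : ∀ t ∈ Icc a b, (F t : E) = f t := by
    intro t ht; simp only [F, dif_pos (hX t ht)]
  have hL : LipschitzOnWith 1 F (Icc a b) := by
    refine LipschitzOnWith.of_dist_le_mul fun s hs t ht => ?_
    rw [Subtype.dist_eq, hF s hs, hF t ht]
    simpa [Real.dist_eq] using hf s t
  have := ilen_le_of_lipschitzOn hab hL (x := x) (y := y)
    (Subtype.ext (by rw [hF a (left_mem_Icc.2 hab), hx]))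
    (Subtype.ext (by rw [hF b (right_mem_Icc.2 hab), hy]))
  rw [abs_of_nonneg (sub_nonneg.2 hab)]
  simpa using this

theorem Holes.qconvex (H : Holes) : QConvex H.X 3 := by
  rintro ⟨⟨x1, x2⟩, hx⟩ ⟨⟨y1, y2⟩, hy⟩
  obtain ⟨g, hg, hgX, hgb⟩ := H.push hx.2.1
  have hz : (y1, g y1) ∈ H.X := hgX y1 hy.1
  obtain ⟨g', hg', hgX', hgb'⟩ := H.swap.push hy.1
  have h1 : ilen (⟨(x1, x2), hx⟩ : H.X) ⟨(y1, g y1), hz⟩ ≤ ENNReal.ofReal |y1 - x1| := by
    refine ilen_le_of_curve_sub (fun t => (t, g t)) ?_ ?_ _ _ ?_ rfl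
    · intro s t
      rw [Prod.dist_eq]
      exact max_le (by rw [Real.dist_eq]) (by rw [Real.dist_eq]; exact hg s t)
    · intro t ht
      exact hgX t (uIcc_subset_Icc hx.1 hy.1 ht)
    · simp only [hgb x1 hx]
  have h2 : ilen (⟨(y1, g y1), hz⟩ : H.X) ⟨(y1, y2), hy⟩ ≤ ENNReal.ofReal |y2 - g y1| := by
    refine ilen_le_of_curve_sub (fun t => (g' t, t)) ?_ ?_ _ _ ?_ ?_
    · intro s t
      rw [Prod.dist_eq]
      exact max_le (by rw [Real.dist_eq]; exact hg' s t) (by rw [Real.dist_eq])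
    · intro t ht
      exact (H.mem_swap _ _).1 (hgX' t (uIcc_subset_Icc hz.2.1 hy.2.1 ht))
    · simp only [hgb' (g y1) ((H.mem_swap _ _).2 hz)]
    · simp only [hgb' y2 ((H.mem_swap _ _).2 hy)]
  refine (ilen_triangle _ _ _).trans ((add_le_add h1 h2).trans ?_)
  rw [← ENNReal.ofReal_add (abs_nonneg _) (abs_nonneg _), edist_dist, Subtype.dist_eq,
    Prod.dist_eq, Real.dist_eq, Real.dist_eq]
  have e3 : ((3 : ℝ≥0) : ℝ≥0∞) = ENNReal.ofReal 3 := by simp
  rw [e3, ← ENNReal.ofReal_mul (by norm_num)]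
  refine ENNReal.ofReal_le_ofReal ?_
  have a1 := le_max_left |x1 - y1| |x2 - y2|
  have a2 := le_max_right |x1 - y1| |x2 - y2|
  have a3 := hg x1 y1
  rw [hgb x1 hx] at a3
  have a4 : |y2 - g y1| ≤ |x2 - y2| + |x2 - g y1| := by
    have e : y2 - g y1 = -(x2 - y2) + (x2 - g y1) := by ring
    rw [e]
    refine (abs_add_le _ _).trans ?_
    rw [abs_neg]
  rw [abs_sub_comm y1 x1]
  simp only at a1 a2 ⊢
  linarith

/-- Along a straight segment inside the set the induced distance is the ambient one. -/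
theorem ilen_le_of_segment {E : Type} [NormedAddCommGroup E] [NormedSpace ℝ E] {X : Set E}
    (x y : X) (h : segment ℝ (x : E) y ⊆ X) : ilen x y ≤ edist x y := by
  by_cases hxy : (x : E) = y
  · have : x = y := Subtype.ext hxy
    subst this
    simp [ilen_self]
  have hd : 0 < ‖(y : E) - x‖ := norm_pos_iff.2 (sub_ne_zero.2 (Ne.symm hxy))
  set d := ‖(y : E) - x‖ with hdef
  have := ilen_le_of_curve_sub (X := X) (fun t => (x : E) + (t / d) • ((y : E) - x))
    (a := 0) (b := d) ?_ ?_ x y (by simp) (by simp [hd.ne'])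
  · rw [sub_zero, abs_of_pos hd] at this
    rw [edist_dist, Subtype.dist_eq, dist_comm, dist_eq_norm]
    exact this
  · intro s t
    rw [dist_eq_norm, add_sub_add_left_eq_sub, ← sub_smul, norm_smul, ← sub_div, Real.norm_eq_abs,
      abs_div, abs_of_pos hd, ← hdef, div_mul_cancel₀ _ hd.ne']
  · intro t ht
    rw [uIcc_of_le hd.le] at ht
    apply h
    rw [segment_eq_image']
    exact ⟨t / d, ⟨div_nonneg ht.1 hd.le, (div_le_one hd).2 ht.2⟩, rfl⟩

end Pool.Agent.H543Z.PM
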