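import Pool.Agent.H543Z.PM.Defs

/-!
The induced length metric of a quasi-convex metric space.
-/

open Set Filter Topology
open scoped ENNReal NNReal unitInterval

namespace Pool.Agent.H543Z.PM

variable {Y : Type} [MetricSpace Y]

/-- Infimum of the lengths of the curves joining two points. -/
noncomputable def ilen (x y : Y) : ℝ≥0∞ := ⨅ γ : Path x y, eVariationOn γ univ

theorem edist_le_ilen (x y : Y) : edist x y ≤ ilen x y := by
  refine le_iInf fun γ => ?_
  have := eVariationOn.edist_le γ (s := univ) (x := 0) (y := 1) (mem_univ _) (mem_univ _)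
  simpa using this

theorem ilen_le_curve {f : ℝ → Y} {a b : ℝ} (hab : a ≤ b) (hf : ContinuousOn f (Icc a b))
    {x y : Y} (hx : f a = x) (hy : f b = y) : ilen x y ≤ eVariationOn f (Icc a b) := by
  have hmaps : MapsTo (fun t : I => a + (t : ℝ) * (b - a)) univ (Icc a b) := by
    intro t _
    have h0 := t.2.1
    have h1 := t.2.2
    constructor <;> nlinarith
  have hmono : MonotoneOn (fun t : I => a + (t : ℝ) * (b - a)) univ := by
    intro s _ t _ hst
    have : (s : ℝ) ≤ t := hst
    simp only
    nlinarith
  let γ : Path x y :=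
    { toFun := f ∘ fun t : I => a + (t : ℝ) * (b - a)
      continuous_toFun := by
        rw [← continuousOn_univ]
        exact hf.comp (by fun_prop) hmaps
      source' := by simp [hx]
      target' := by simp [hy] }
  exact (iInf_le _ γ).trans (eVariationOn.comp_le_of_monotoneOn f _ hmono hmaps)

theorem var_extend_le {x y : Y} (γ : Path x y) (φ : ℝ → ℝ) (hφ : Monotone φ) (s : Set ℝ) :
    eVariationOn (fun t => γ.extend (φ t)) s ≤ eVariationOn γ univ := by
  have : (fun t => γ.extend (φ t)) = γ ∘ (fun t => projIcc (0 : ℝ) 1 zero_le_one (φ t)) := by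
    funext t; rfl
  rw [this]
  exact eVariationOn.comp_le_of_monotoneOn γ _
    (((monotone_projIcc zero_le_one).comp hφ).monotoneOn s) (mapsTo_univ _ _)

theorem ilen_self (x : Y) : ilen x x = 0 := by
  refine le_antisymm ((iInf_le _ (Path.refl x)).trans (le_of_eq ?_)) zero_le
  apply eVariationOn.constant_on
  rintro _ ⟨s, -, rfl⟩ _ ⟨t, -, rfl⟩
  simp

theorem ilen_comm_le (x y : Y) : ilen x y ≤ ilen y x := by
  refine le_iInf fun γ => (iInf_le _ γ.symm).trans ?_
  have : (γ.symm : I → Y) = γ ∘ unitInterval.symm := by funext t; rfl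
  rw [this]
  exact eVariationOn.comp_le_of_antitoneOn γ _
    (unitInterval.strictAnti_symm.antitone.antitoneOn _) (mapsTo_univ _ _)

theorem ilen_comm (x y : Y) : ilen x y = ilen y x :=
  le_antisymm (ilen_comm_le x y) (ilen_comm_le y x)

theorem ilen_triangle (x y z : Y) : ilen x z ≤ ilen x y + ilen y z := by
  refine ENNReal.le_iInf_add_iInf fun γ γ' => ?_
  let f : ℝ → Y := fun t => if t ≤ 1 then γ.extend t else γ'.extend (t - 1)
  have hf : Continuous f := by
    refine Continuous.if_le γ.continuous_extend
      (γ'.continuous_extend.comp (continuous_id.sub continuous_const)) continuous_id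
      continuous_const ?_
    rintro t rfl
    simp
  have h0 : f 0 = x := by simp [f]
  have h2 : f 2 = z := by
    have : ¬ (2 : ℝ) ≤ 1 := by norm_num
    simp only [f, this, if_false]
    norm_num
  refine (ilen_le_curve (by norm_num : (0 : ℝ) ≤ 2) hf.continuousOn h0 h2).trans ?_
  have hsplit := eVariationOn.Icc_add_Icc f (s := univ) (a := 0) (b := 1) (c := 2)
    (by norm_num) (by norm_num) (mem_univ _)
  simp only [univ_inter] at hsplit
  rw [← hsplit]
  refine add_le_add ?_ ?_
  · refine le_trans (le_of_eq ?_) (var_extend_le γ id monotone_id (Icc 0 1))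
    apply eVariationOn.congr
    intro t ht
    simp [f, ht.2]
  · refine le_trans (le_of_eq ?_)
      (var_extend_le γ' (fun t => t - 1) (fun a b h => by simpa using h) (Icc 1 2))
    apply eVariationOn.congr
    intro t ht
    by_cases h : t ≤ 1
    · have : t = 1 := le_antisymm h ht.1
      subst this
      simp [f]
    · simp [f, h]

theorem ilen_le_of_lipschitzOn {f : ℝ → Y} {a b : ℝ} (hab : a ≤ b) {L : ℝ≥0}
    (hf : LipschitzOnWith L f (Icc a b)) {x y : Y} (hx : f a = x) (hy : f b = y) :
    ilen x y ≤ L * ENNReal.ofReal (b - a) := by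
  refine (ilen_le_curve hab hf.continuousOn hx hy).trans ?_
  have := hf.comp_eVariationOn_le (g := id) (s := Icc a b) (mapsTo_id _)
  simpa using this

/-- Quasi-convexity with constant `C`. -/
def QConvex (Y : Type) [MetricSpace Y] (C : ℝ≥0) : Prop := ∀ x y : Y, ilen x y ≤ C * edist x y

/-- The space `Y` with its induced length metric. -/
def Intr (Y : Type) [MetricSpace Y] {C : ℝ≥0} (_h : QConvex Y C) : Type := Y

variable {C : ℝ≥0}

theorem QConvex.ne_top (h : QConvex Y C) (x y : Y) : ilen x y ≠ ⊤ :=
  ne_top_of_le_ne_top (ENNReal.mul_ne_top ENNReal.coe_ne_top (edist_ne_top x y)) (h x y)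

/-- The identity map from `Y` to `Intr Y h`. -/
def toIntr (h : QConvex Y C) : Y ≃ Intr Y h := Equiv.refl Y

noncomputable instance instMetricIntr (h : QConvex Y C) : MetricSpace (Intr Y h) where
  dist x y := (ilen ((toIntr h).symm x) ((toIntr h).symm y)).toReal
  dist_self x := by simp [ilen_self]
  dist_comm x y := by rw [ilen_comm]
  dist_triangle x y z := by
    rw [← ENNReal.toReal_add (h.ne_top _ _) (h.ne_top _ _)]
    exact ENNReal.toReal_mono (ENNReal.add_ne_top.2 ⟨h.ne_top _ _, h.ne_top _ _⟩)
      (ilen_triangle _ _ _)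
  eq_of_dist_eq_zero := by
    intro x y hxy
    have h0 : ilen ((toIntr h).symm x) ((toIntr h).symm y) = 0 := by
      rcases (ENNReal.toReal_eq_zero_iff _).1 hxy with h1 | h1
      · exact h1
      · exact absurd h1 (h.ne_top _ _)
    have h1 := edist_le_ilen ((toIntr h).symm x) ((toIntr h).symm y)
    rw [h0, nonpos_iff_eq_zero, edist_eq_zero] at h1
    exact (toIntr h).symm.injective h1

theorem edist_toIntr (h : QConvex Y C) (x y : Y) :
    edist (toIntr h x) (toIntr h y) = ilen x y := by
  rw [edist_dist]
  change ENNReal.ofReal (ilen x y).toReal = _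
  exact ENNReal.ofReal_toReal (h.ne_top _ _)

theorem lip_toIntr (h : QConvex Y C) : LipschitzWith C (toIntr h) := fun x y => by
  rw [edist_toIntr]; exact h x y

theorem lip_toIntr_symm (h : QConvex Y C) : LipschitzWith 1 (toIntr h).symm := fun x y => by
  obtain ⟨x, rfl⟩ := (toIntr h).surjective x
  obtain ⟨y, rfl⟩ := (toIntr h).surjective y
  rw [edist_toIntr]
  simpa using edist_le_ilen x y

/-- The identity as a homeomorphism. -/
noncomputable def homeoIntr (h : QConvex Y C) : Y ≃ₜ Intr Y h where
  toEquiv := toIntr h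
  continuous_toFun := (lip_toIntr h).continuous
  continuous_invFun := (lip_toIntr_symm h).continuous

theorem isLengthSpace_intr (h : QConvex Y C) : IsLengthSpace (Intr Y h) := by
  intro x y
  obtain ⟨x, rfl⟩ := (toIntr h).surjective x
  obtain ⟨y, rfl⟩ := (toIntr h).surjective y
  refine le_antisymm (edist_le_ilen _ _) ?_
  rw [edist_toIntr]
  refine le_iInf fun γ => (iInf_le _ (γ.map (lip_toIntr h).continuous)).trans ?_
  refine iSup_le ?_
  rintro ⟨n, u, hu, -⟩
  have hv : Monotone (fun i => (u i : ℝ)) := fun i j hij => hu hij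
  calc ∑ i ∈ Finset.range n, edist ((γ.map (lip_toIntr h).continuous) (u (i + 1)))
          ((γ.map (lip_toIntr h).continuous) (u i))
      ≤ ∑ i ∈ Finset.range n, eVariationOn γ.extend (Icc (u i : ℝ) (u (i + 1) : ℝ)) := by
        refine Finset.sum_le_sum fun i _ => ?_
        change edist (toIntr h (γ (u (i + 1)))) (toIntr h (γ (u i))) ≤ _
        rw [edist_toIntr, ilen_comm]
        exact ilen_le_curve (hv (Nat.le_succ i)) γ.continuous_extend.continuousOn
          (by simp) (by simp)
    _ = eVariationOn γ.extend (Icc (u 0 : ℝ) (u n : ℝ)) := eVariationOn.sum' _ hv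
    _ ≤ eVariationOn γ univ := var_extend_le γ id monotone_id _

end Pool.Agent.H543Z.PM
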