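import Pool.Agent.H543Z.PM.Ana

/-!
The square with holes, with its induced length metric, is not an inverse limit of metric graphs.
-/

open Set Filter Topology Metric MeasureTheory
open scoped ENNReal NNReal Pointwise

namespace Pool.Agent.H543Z.PM

variable {M : Type} [MetricSpace M]

theorem vol_strip {U : Set ℝ} (hU : MeasurableSet U) (β : ℝ) :
    volume {x : ℝ × ℝ | x.2 ∈ Icc (0 : ℝ) 1 ∧ x.1 + β * x.2 ∈ U} ≤ volume U := by
  refine vol_le_of_sections ?_ (fun x hx => hx.1) fun y => ?_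
  · exact (measurableSet_Icc.preimage measurable_snd).inter (hU.preimage (by fun_prop))
  · refine le_trans (measure_mono (t := (fun s => s + β * y) ⁻¹' U) fun s hs => hs.2) ?_
    rw [measure_preimage_add_right]

/-- The shadow of the holes on a line. -/
def Holes.shadow (H : Holes) (a : ℕ × ℕ → ℝ) : Set ℝ := ⋃ k, Ioo (a k - H.r k) (a k + H.r k)

theorem Holes.isOpen_shadow (H : Holes) (a : ℕ × ℕ → ℝ) : IsOpen (H.shadow a) :=
  isOpen_iUnion fun _ => isOpen_Ioo

theorem Holes.vol_shadow (H : Holes) (a : ℕ × ℕ → ℝ) :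
    volume (H.shadow a) ≤ ENNReal.ofReal (1 / 16) := by
  refine (measure_iUnion_le _).trans (le_trans (le_of_eq ?_) H.sum_r)
  refine tsum_congr fun k => ?_
  rw [Real.volume_Ioo]; congr 1; ring

theorem Holes.le_abs_of_notMem (H : Holes) {a : ℕ × ℕ → ℝ} {s : ℝ} (h : s ∉ H.shadow a)
    (k : ℕ × ℕ) : H.r k ≤ |s - a k| := by
  by_contra hc
  rw [not_le, abs_lt] at hc
  exact h (mem_iUnion.2 ⟨k, by constructor <;> linarith [hc.1, hc.2]⟩)

theorem Holes.no_short_map (H : Holes) (π : ℝ × ℝ → M) (C : ℝ≥0)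
    (hπ : ∀ a ∈ H.X, ∀ b ∈ H.X, dist (π a) (π b) ≤ C * dist a b)
    (hseg : ∀ a b, segment ℝ a b ⊆ H.X → dist (π a) (π b) ≤ dist a b)
    (hiso : ∀ a ∈ H.X, ∀ b ∈ H.X, dist a b - 1 / 10 ≤ dist (π a) (π b))
    {ι : Type} [Countable ι] (σ : ι → Set M) (f : ι → M → ℝ) (hcov : ∀ m, ∃ i, m ∈ σ i)
    (hf : ∀ i, ∀ a ∈ σ i, ∀ b ∈ σ i, dist a b = |f i a - f i b|) : False := by
  have hcont : ContinuousOn π H.X :=
    (LipschitzOnWith.of_dist_le_mul (K := C) fun a ha b hb => hπ a ha b hb).continuousOn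
  let G1 : Set ℝ := Icc 0 1 \ H.shadow H.c1
  let G2 : Set ℝ := Icc 0 1 \ H.shadow H.c2
  have hG1 : IsClosed G1 := isClosed_Icc.sdiff (H.isOpen_shadow _)
  have hG2 : IsClosed G2 := isClosed_Icc.sdiff (H.isOpen_shadow _)
  have mem2 : ∀ s ∈ Icc (0 : ℝ) 1, ∀ b ∈ G2, (s, b) ∈ H.X := fun s hs b hb =>
    ⟨hs, hb.1, fun k _ => by
      have := H.le_abs_of_notMem hb.2 k
      linarith [abs_nonneg (s - H.c1 k)]⟩
  have mem1 : ∀ s ∈ Icc (0 : ℝ) 1, ∀ b ∈ G1, (b, s) ∈ H.X := fun s hs b hb =>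
    ⟨hb.1, hs, fun k _ => by
      have := H.le_abs_of_notMem hb.2 k
      linarith [abs_nonneg (s - H.c2 k)]⟩
  have hB2 := slow_bound π hG2 sdiff_subset (ε := 1 / 10)
    (hcont.mono fun x hx => mem2 x.1 hx.1 x.2 hx.2)
    (fun b hb s hs t ht => by
      refine (hseg _ _ ?_).trans (by simp [Prod.dist_eq, Real.dist_eq])
      refine (Convex.segment_subset (s := Icc (0 : ℝ) 1 ×ˢ {b})
        ((convex_Icc 0 1).prod (convex_singleton b)) ⟨hs, rfl⟩ ⟨ht, rfl⟩).trans ?_
      rintro ⟨u, w⟩ ⟨hu, rfl⟩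
      exact mem2 u hu _ hb)
    (fun b hb => by
      have := hiso (0, b) (mem2 0 (by simp) b hb) (1, b) (mem2 1 (by simp) b hb)
      simpa [Prod.dist_eq, Real.dist_eq] using this)
  have hB1 := slow_bound (π ∘ Prod.swap) hG1 sdiff_subset (ε := 1 / 10)
    (hcont.comp continuous_swap.continuousOn fun x hx => mem1 x.1 hx.1 x.2 hx.2)
    (fun b hb s hs t ht => by
      refine (hseg _ _ ?_).trans (by simp [Prod.dist_eq, Real.dist_eq])
      refine (Convex.segment_subset (s := {b} ×ˢ Icc (0 : ℝ) 1)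
        ((convex_singleton b).prod (convex_Icc 0 1)) ⟨rfl, hs⟩ ⟨rfl, ht⟩).trans ?_
      rintro ⟨u, w⟩ ⟨rfl, hw⟩
      exact mem1 w hw _ hb)
    (fun b hb => by
      have := hiso (b, 0) (mem1 0 (by simp) b hb) (b, 1) (mem1 1 (by simp) b hb)
      simpa [Prod.dist_eq, Real.dist_eq] using this)
  have hae : ∀ᵐ x, ∀ i, x ∈ H.X ∩ π ⁻¹' σ i → ∃ ℓ : ℝ × ℝ →L[ℝ] ℝ, ∀ v : ℝ × ℝ, ∀ ε > 0,
      ∀ᶠ t in 𝓝[>] (0 : ℝ), x + t • v ∈ H.X →
        abs (dist (π x) (π (x + t • v)) - t * |ℓ v|) ≤ ε * t :=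
    ae_all_iff.2 fun i => ae_metric_deriv inter_subset_left π C hπ (f i)
      fun a ha b hb => hf i _ ha.2 _ hb.2
  set B2 := {x : ℝ × ℝ | x.1 ∈ Ioo (0 : ℝ) 1 ∧ x.2 ∈ G2 ∧
      ∀ᶠ t in 𝓝[>] (0 : ℝ), dist (π x) (π (x.1 + t, x.2)) ≤ 2 / 3 * t} with hB2def
  set B1 := {x : ℝ × ℝ | x.1 ∈ Ioo (0 : ℝ) 1 ∧ x.2 ∈ G1 ∧
      ∀ᶠ t in 𝓝[>] (0 : ℝ), dist ((π ∘ Prod.swap) x) ((π ∘ Prod.swap) (x.1 + t, x.2))
        ≤ 2 / 3 * t} with hB1def
  let S1 := {x : ℝ × ℝ | x.2 ∈ Icc (0 : ℝ) 1 ∧ x.1 + 0 * x.2 ∈ H.shadow H.c1}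
  let S2 := {x : ℝ × ℝ | x.2 ∈ Icc (0 : ℝ) 1 ∧ x.1 + 0 * x.2 ∈ H.shadow H.c2}
  let S3 := {x : ℝ × ℝ | x.2 ∈ Icc (0 : ℝ) 1 ∧
    x.1 + 1 * x.2 ∈ H.shadow (fun k => H.c1 k + H.c2 k)}
  let S4 := {x : ℝ × ℝ | x.2 ∈ Icc (0 : ℝ) 1 ∧
    x.1 + (-1) * x.2 ∈ H.shadow (fun k => H.c1 k - H.c2 k)}
  have hsub : (Ioo (0 : ℝ) 1 ×ˢ Ioo (0 : ℝ) 1 : Set (ℝ × ℝ)) ≤ᵐ[volume]
      (S1 ∪ Prod.swap ⁻¹' S2 ∪ S3 ∪ S4 ∪ B2 ∪ Prod.swap ⁻¹' B1 : Set (ℝ × ℝ)) := by
    filter_upwards [hae] with x hx hxK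
    obtain ⟨x1, x2⟩ := x
    have hx1 : x1 ∈ Ioo (0 : ℝ) 1 := hxK.1
    have hx2 : x2 ∈ Ioo (0 : ℝ) 1 := hxK.2
    by_contra hcon
    change ¬ ((x1, x2) ∈ S1 ∪ Prod.swap ⁻¹' S2 ∪ S3 ∪ S4 ∪ B2 ∪ Prod.swap ⁻¹' B1) at hcon
    simp only [mem_union, not_or] at hcon
    obtain ⟨⟨⟨⟨⟨n1, n2⟩, n3⟩, n4⟩, n5⟩, n6⟩ := hcon
    have g1 : x1 ∈ G1 := ⟨Ioo_subset_Icc_self hx1, fun h => n1 ⟨Ioo_subset_Icc_self hx2, by
      simpa using h⟩⟩
    have g2 : x2 ∈ G2 := ⟨Ioo_subset_Icc_self hx2, fun h => n2 ⟨Ioo_subset_Icc_self hx1, by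
      simpa using h⟩⟩
    have g3 : x1 + x2 ∉ H.shadow (fun k => H.c1 k + H.c2 k) := fun h =>
      n3 ⟨Ioo_subset_Icc_self hx2, by simpa using h⟩
    have g4 : x1 - x2 ∉ H.shadow (fun k => H.c1 k - H.c2 k) := fun h =>
      n4 ⟨Ioo_subset_Icc_self hx2, by simpa [sub_eq_add_neg] using h⟩
    have hxX : (x1, x2) ∈ H.X := mem2 _ (Ioo_subset_Icc_self hx1) _ g2
    obtain ⟨i, hi⟩ := hcov (π (x1, x2))
    obtain ⟨ℓ, hℓ⟩ := hx i ⟨hxX, hi⟩
    obtain ⟨δ, hδ0, hδ1, hδ2, hδ3⟩ : ∃ δ : ℝ, 0 < δ ∧ x1 + δ ≤ 1 ∧ x2 + δ ≤ 1 ∧ δ ≤ x2 :=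
      ⟨min (1 - x1) (min (1 - x2) x2), lt_min (sub_pos.2 hx1.2) (lt_min (sub_pos.2 hx2.2) hx2.1),
        by linarith [min_le_left (1 - x1) (min (1 - x2) x2)],
        by linarith [min_le_right (1 - x1) (min (1 - x2) x2), min_le_left (1 - x2) x2],
        by linarith [min_le_right (1 - x1) (min (1 - x2) x2), min_le_right (1 - x2) x2]⟩
    have upper : ∀ v : ℝ × ℝ, ‖v‖ ≤ 1 → (∀ t ∈ Icc 0 δ, (x1, x2) + t • v ∈ H.X) → |ℓ v| ≤ 1 := by
      intro v hv hmem
      refine le_of_forall_pos_le_add fun ε hε => ?_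
      obtain ⟨t, ht1, ht2⟩ := ((hℓ v ε hε).and (Ioo_mem_nhdsGT hδ0)).exists
      have h1 := abs_le.1 (ht1 (hmem t (Ioo_subset_Icc_self ht2)))
      have h2 : dist (π (x1, x2)) (π ((x1, x2) + t • v)) ≤ t := by
        refine (hseg _ _ ?_).trans ?_
        · rw [segment_eq_image']
          rintro _ ⟨s, hs, rfl⟩
          simp only [add_sub_cancel_left, smul_smul]
          exact hmem _ ⟨mul_nonneg hs.1 ht2.1.le, by nlinarith [hs.2, ht2.1, ht2.2, hs.1]⟩
        · rw [dist_self_add_right, norm_smul, Real.norm_eq_abs, abs_of_pos ht2.1]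
          nlinarith [ht2.1]
      have h3 : t * |ℓ v| ≤ t * (1 + ε) := by linarith [h1.1]
      exact le_of_mul_le_mul_left h3 ht2.1
    have u3 : |ℓ (1, 1)| ≤ 1 := by
      refine upper _ (by simp) fun t ht => ?_
      refine ⟨⟨by simp; linarith [hx1.1, ht.1], by simp; linarith [ht.2]⟩,
        ⟨by simp; linarith [hx2.1, ht.1], by simp; linarith [ht.2]⟩, fun k _ => ?_⟩
      have h1 := H.le_abs_of_notMem g4 k
      have h2 := abs_sub (x1 + t - H.c1 k) (x2 + t - H.c2 k)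
      have e : x1 + t - H.c1 k - (x2 + t - H.c2 k) = x1 - x2 - (H.c1 k - H.c2 k) := by ring
      rw [e] at h2
      simpa using h1.trans h2
    have u4 : |ℓ (1, -1)| ≤ 1 := by
      refine upper _ (by simp) fun t ht => ?_
      refine ⟨⟨by simp; linarith [hx1.1, ht.1], by simp; linarith [ht.2]⟩,
        ⟨by simp; linarith [ht.2], by simp; linarith [hx2.2, ht.1]⟩, fun k _ => ?_⟩
      have h1 := H.le_abs_of_notMem g3 k
      have h2 := abs_add_le (x1 + t - H.c1 k) (x2 + -t - H.c2 k)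
      have e : x1 + t - H.c1 k + (x2 + -t - H.c2 k) = x1 + x2 - (H.c1 k + H.c2 k) := by ring
      rw [e] at h2
      simpa using h1.trans h2
    have e3 : ℓ (1, 1) = ℓ (1, 0) + ℓ (0, 1) := by rw [← map_add]; simp
    have e4 : ℓ (1, -1) = ℓ (1, 0) - ℓ (0, 1) := by rw [← map_sub]; simp
    rw [e3, abs_le] at u3
    rw [e4, abs_le] at u4
    have hor : |ℓ (1, 0)| ≤ 1 / 2 ∨ |ℓ (0, 1)| ≤ 1 / 2 := by
      by_contra hc
      rw [not_or, not_le, not_le, lt_abs, lt_abs] at hc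
      rcases hc with ⟨h1 | h1, h2 | h2⟩ <;> linarith [u3.1, u3.2, u4.1, u4.2]
    rcases hor with h | h
    · refine n5 ⟨hx1, g2, ?_⟩
      filter_upwards [hℓ (1, 0) (1 / 6) (by norm_num), Ioo_mem_nhdsGT hδ0] with t ht1 ht2
      have e : ((x1, x2) : ℝ × ℝ) + t • (1, 0) = (x1 + t, x2) := by simp
      rw [e] at ht1
      have h1 := abs_le.1 (ht1 (mem2 _ ⟨by linarith [hx1.1, ht2.1], by linarith [ht2.2]⟩ _ g2))
      nlinarith [h1.2, ht2.1]
    · refine n6 ⟨hx2, g1, ?_⟩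
      filter_upwards [hℓ (0, 1) (1 / 6) (by norm_num), Ioo_mem_nhdsGT hδ0] with t ht1 ht2
      have e : ((x1, x2) : ℝ × ℝ) + t • (0, 1) = (x1, x2 + t) := by simp
      rw [e] at ht1
      have h1 := abs_le.1 (ht1 (mem1 _ ⟨by linarith [hx2.1, ht2.1], by linarith [ht2.2]⟩ _ g1))
      simp only [Function.comp, Prod.swap]
      nlinarith [h1.2, ht2.1]
  have hv := measure_mono_ae hsub
  have v1 : volume S1 ≤ ENNReal.ofReal (1 / 16) :=
    (vol_strip (H.isOpen_shadow _).measurableSet _).trans (H.vol_shadow _)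
  have v2 : volume (Prod.swap ⁻¹' S2) ≤ ENNReal.ofReal (1 / 16) :=
    (vol_swap_le _).trans ((vol_strip (H.isOpen_shadow _).measurableSet _).trans (H.vol_shadow _))
  have v3 : volume S3 ≤ ENNReal.ofReal (1 / 16) :=
    (vol_strip (H.isOpen_shadow _).measurableSet _).trans (H.vol_shadow _)
  have v4 : volume S4 ≤ ENNReal.ofReal (1 / 16) :=
    (vol_strip (H.isOpen_shadow _).measurableSet _).trans (H.vol_shadow _)
  have v6 := (vol_swap_le B1).trans hB1
  have hK : volume (Ioo (0 : ℝ) 1 ×ˢ Ioo (0 : ℝ) 1 : Set (ℝ × ℝ)) = ENNReal.ofReal 1 := by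
    rw [Measure.volume_eq_prod, Measure.prod_prod]; simp
  rw [hK] at hv
  have hsum := hv.trans ((measure_union_le _ _).trans (add_le_add ((measure_union_le _ _).trans
    (add_le_add ((measure_union_le _ _).trans (add_le_add ((measure_union_le _ _).trans
    (add_le_add ((measure_union_le _ _).trans (add_le_add v1 v2)) v3)) v4)) hB2)) v6))
  rw [← ENNReal.ofReal_add, ← ENNReal.ofReal_add, ← ENNReal.ofReal_add, ← ENNReal.ofReal_add,
    ← ENNReal.ofReal_add, ENNReal.ofReal_le_ofReal_iff] at hsum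
  · norm_num at hsum
  all_goals norm_num

/-- The convex hull of at most two points is isometric to a piece of the line. -/
theorem exists_coord {V : Type} [NormedAddCommGroup V] [NormedSpace ℝ V] (t : Finset V)
    (ht : t.card ≤ 2) : ∃ f : V → ℝ, Continuous f ∧ ∀ p ∈ convexHull ℝ (t : Set V),
      ∀ q ∈ convexHull ℝ (t : Set V), dist p q = |f p - f q| := by
  classical
  obtain ⟨u, w, huw⟩ : ∃ u w : V, (t : Set V) ⊆ {u, w} := by
    rcases Nat.lt_or_ge t.card 2 with h | h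
    · obtain ⟨a, ha⟩ := Finset.card_le_one_iff_subset_singleton.1 (Nat.lt_succ_iff.1 h)
      exact ⟨a, a, fun x hx => by simpa using ha hx⟩
    · obtain ⟨a, b, -, rfl⟩ := Finset.card_eq_two.1 (le_antisymm ht h)
      exact ⟨a, b, by simp⟩
  refine ⟨fun p => dist p u, by fun_prop, fun p hp q hq => ?_⟩
  have hp' := convexHull_mono huw hp
  have hq' := convexHull_mono huw hq
  rw [convexHull_pair, segment_eq_image'] at hp' hq'
  obtain ⟨a, ha, rfl⟩ := hp'
  obtain ⟨b, hb, rfl⟩ := hq'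
  simp only [dist_eq_norm, add_sub_cancel_left, add_sub_add_left_eq_sub, ← sub_smul, norm_smul,
    Real.norm_eq_abs, abs_of_nonneg ha.1, abs_of_nonneg hb.1, ← sub_mul, abs_mul, abs_norm]

/-- A simplex that injects continuously into the line has at most two vertices. -/
theorem card_le_two_of_inj {V : Type} [NormedAddCommGroup V] [NormedSpace ℝ V] (t : Finset V)
    (ht : AffineIndependent ℝ ((↑) : t → V)) (g : V → ℝ)
    (hg : ContinuousOn g (convexHull ℝ (t : Set V)))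
    (hinj : InjOn g (convexHull ℝ (t : Set V))) : t.card ≤ 2 := by
  classical
  have key : ∀ a ∈ t, ∀ b ∈ t, ∀ c ∈ t, b ≠ a → b ≠ c → g b ∉ uIcc (g a) (g c) := by
    intro a ha b hb c hc hba hbc hmem
    have hsub : segment ℝ a c ⊆ convexHull ℝ (t : Set V) :=
      (convex_convexHull ℝ _).segment_subset (subset_convexHull ℝ _ ha) (subset_convexHull ℝ _ hc)
    have hpre : IsPreconnected (g '' segment ℝ a c) :=
      (convex_segment a c).isPreconnected.image g (hg.mono hsub)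
    obtain ⟨p, hp, hpb⟩ := hpre.ordConnected.uIcc_subset ⟨a, left_mem_segment ℝ a c, rfl⟩
      ⟨c, right_mem_segment ℝ a c, rfl⟩ hmem
    have hpb' : p = b := hinj (hsub hp) (subset_convexHull ℝ _ hb) hpb
    subst hpb'
    have h1 : p ∈ affineSpan ℝ (((↑) : t → V) '' {⟨a, ha⟩, ⟨c, hc⟩}) := by
      rw [image_pair]
      rw [← convexHull_pair] at hp
      exact convexHull_subset_affineSpan _ hp
    have h2 := (ht.mem_affineSpan_iff ⟨p, hb⟩ _).1 h1
    rcases h2 with h2 | h2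
    · exact hba (congrArg Subtype.val h2)
    · exact hbc (congrArg Subtype.val h2)
  by_contra hcon
  obtain ⟨a, b, c, ha, hb, hc, hab, hac, hbc⟩ := Finset.two_lt_card_iff.1 (not_le.1 hcon)
  have k1 := key a ha b hb c hc hab.symm hbc
  have k2 := key b hb a ha c hc hab hac
  have k3 := key a ha c hc b hb hac.symm hbc.symm
  rw [mem_uIcc] at k1 k2 k3
  rcases le_total (g a) (g b) with h1 | h1 <;> rcases le_total (g b) (g c) with h2 | h2 <;>
    rcases le_total (g a) (g c) with h3 | h3 <;> tauto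

theorem ilen_sub_le {σ : Set M} (hM : IsLengthSpace M) {m : M} {r : ℝ} (hσ : ball m (3 * r) ⊆ σ)
    (a b : σ) (ha : (a : M) ∈ ball m r) (hb : (b : M) ∈ ball m r) : ilen a b ≤ edist a b := by
  have hab : edist (a : M) b < ENNReal.ofReal (2 * r) := by
    rw [edist_dist, ENNReal.ofReal_lt_ofReal_iff_of_nonneg dist_nonneg]
    have := dist_triangle_right (a : M) b m
    rw [mem_ball] at ha hb
    linarith
  rw [Subtype.edist_eq, hM a b]
  refine le_iInf fun γ => ?_
  by_cases hγ : eVariationOn γ univ < ENNReal.ofReal (2 * r)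
  · have hin : ∀ t, γ t ∈ σ := by
      intro t
      apply hσ
      have h1 := (eVariationOn.edist_le γ (mem_univ t) (mem_univ 0)).trans_lt hγ
      rw [γ.source, edist_dist, ENNReal.ofReal_lt_ofReal_iff_of_nonneg dist_nonneg] at h1
      have := dist_triangle (γ t) a m
      rw [mem_ball] at ha ⊢
      linarith
    let γ' : Path a b :=
      { toFun := fun t => ⟨γ t, hin t⟩
        continuous_toFun := γ.continuous.subtype_mk _
        source' := Subtype.ext γ.source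
        target' := Subtype.ext γ.target }
    exact (iInf_le _ γ').trans (le_of_eq rfl)
  · refine le_trans ?_ (not_lt.1 hγ)
    rw [hM a b] at hab
    obtain ⟨γ₀, hγ₀⟩ := iInf_lt_iff.1 hab
    have hin : ∀ t, γ₀ t ∈ σ := by
      intro t
      apply hσ
      have h1 := (eVariationOn.edist_le γ₀ (mem_univ t) (mem_univ 0)).trans_lt hγ₀
      rw [γ₀.source, edist_dist, ENNReal.ofReal_lt_ofReal_iff_of_nonneg dist_nonneg] at h1
      have := dist_triangle (γ₀ t) a m
      rw [mem_ball] at ha ⊢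
      linarith
    let γ' : Path a b :=
      { toFun := fun t => ⟨γ₀ t, hin t⟩
        continuous_toFun := γ₀.continuous.subtype_mk _
        source' := Subtype.ext γ₀.source
        target' := Subtype.ext γ₀.target }
    exact (iInf_le _ γ').trans (le_trans (le_of_eq rfl) hγ₀.le)

theorem polyhedron_cover (hM : IsMinkowskiPolyhedron M 1) :
    ∃ (ι : Type) (_ : Countable ι) (σ : ι → Set M) (f : ι → M → ℝ), (∀ m, ∃ i, m ∈ σ i) ∧
      ∀ i, ∀ a ∈ σ i, ∀ b ∈ σ i, dist a b = |f i a - f i b| := by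
  classical
  obtain ⟨hlen, N, K, φ, hfin, hK⟩ := hM
  let σ : Finset (EuclideanSpace ℝ (Fin N)) → Set M := fun s =>
    φ '' {p : K.space | (p : EuclideanSpace ℝ (Fin N)) ∈
      convexHull ℝ (s : Set (EuclideanSpace ℝ (Fin N)))}
  have hσc : ∀ s, IsClosed (σ s) := fun s => φ.isClosedMap _
    ((s.finite_toSet.isClosed_convexHull ℝ).preimage continuous_subtype_val)
  have hf : ∀ s ∈ K.faces, ∃ f : M → ℝ, ∀ m r, ball m (3 * r) ⊆ σ s →
      ∀ a ∈ ball m r, ∀ b ∈ ball m r, dist a b = |f a - f b| := by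
    intro s hs
    obtain ⟨hcard, V, _, _, _, t, hind, e, he⟩ := hK s hs
    have hlip : LipschitzWith 1 e.symm := by
      intro x y
      obtain ⟨x, rfl⟩ := e.surjective x
      obtain ⟨y, rfl⟩ := e.surjective y
      simp only [Equiv.symm_apply_apply, ENNReal.coe_one, one_mul]
      rcases he with he | he
      · exact (he x y).ge
      · rw [he]; exact edist_le_ilen x y
    obtain ⟨c, hc, hcs⟩ := exists_coord s hcard
    let g : V → ℝ := fun v => if h : v ∈ convexHull ℝ (t : Set V) then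
      c (φ.symm (e.symm ⟨v, h⟩ : M) : EuclideanSpace ℝ (Fin N)) else 0
    have hmem : ∀ z : convexHull ℝ (t : Set V), (φ.symm (e.symm z : M) : EuclideanSpace ℝ (Fin N))
        ∈ convexHull ℝ (s : Set (EuclideanSpace ℝ (Fin N))) := by
      intro z
      obtain ⟨p, hp, hpe⟩ := (e.symm z).2
      rw [← hpe, Homeomorph.symm_apply_apply]
      exact hp
    have ht2 : t.card ≤ 2 := by
      refine card_le_two_of_inj t hind g ?_ ?_
      · rw [continuousOn_iff_continuous_domRestrict]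
        have : (convexHull ℝ (t : Set V)).domRestrict g = fun z =>
            c (φ.symm (e.symm z : M) : EuclideanSpace ℝ (Fin N)) := by
          funext z; simp only [domRestrict_apply, g, dif_pos z.2]
        rw [this]
        exact hc.comp (continuous_subtype_val.comp (φ.symm.continuous.comp
          (continuous_subtype_val.comp hlip.continuous)))
      · intro v hv w hw hvw
        simp only [g, dif_pos hv, dif_pos hw] at hvw
        have h1 := hcs _ (hmem ⟨v, hv⟩) _ (hmem ⟨w, hw⟩)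
        rw [hvw, sub_self, abs_zero, dist_eq_zero] at h1
        have h2 := e.symm.injective (Subtype.ext (φ.symm.injective (Subtype.ext h1)))
        exact congrArg Subtype.val h2
    obtain ⟨c', -, hc'⟩ := exists_coord t ht2
    refine ⟨fun m => if h : m ∈ σ s then c' (e ⟨m, h⟩ : V) else 0,
      fun m r hr a ha b hb => ?_⟩
    have hr0 : 0 < r := pos_of_mem_ball ha
    have ha' : a ∈ σ s := hr (ball_subset_ball (by linarith) ha)
    have hb' : b ∈ σ s := hr (ball_subset_ball (by linarith) hb)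
    simp only [dif_pos ha', dif_pos hb']
    rw [← hc' _ (e ⟨a, ha'⟩).2 _ (e ⟨b, hb'⟩).2, ← Subtype.dist_eq]
    have : edist (e ⟨a, ha'⟩) (e ⟨b, hb'⟩) = edist a b := by
      rcases he with he | he
      · exact he _ _
      · rw [he]
        exact le_antisymm (ilen_sub_le hlen hr ⟨a, ha'⟩ ⟨b, hb'⟩ ha hb)
          (edist_le_ilen (Y := σ s) ⟨a, ha'⟩ ⟨b, hb'⟩)
    rw [dist_edist, dist_edist, this]
  let W : Set M := {m | ∃ s ∈ K.faces, (φ.symm m : EuclideanSpace ℝ (Fin N)) ∈ s}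
  have hW : W.Finite := by
    have h1 : (⋃ s ∈ K.faces, (s : Set (EuclideanSpace ℝ (Fin N)))).Finite :=
      hfin.biUnion fun s _ => s.finite_toSet
    refine (h1.preimage (f := fun m : M => (φ.symm m : EuclideanSpace ℝ (Fin N)))
      (Subtype.val_injective.comp φ.symm.injective).injOn).subset ?_
    rintro m ⟨s, hs, hm⟩
    exact mem_iUnion₂.2 ⟨s, hs, hm⟩
  have hloc : ∀ m : M, ∃ (U : Set M) (f : M → ℝ), m ∈ U ∧ (m ∉ W → U ∈ 𝓝 m) ∧
      ∀ a ∈ U, ∀ b ∈ U, dist a b = |f a - f b| := by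
    intro m
    by_cases hm : m ∈ W
    · refine ⟨{m}, fun _ => 0, rfl, fun h => absurd hm h, ?_⟩
      rintro a rfl b rfl
      simp
    obtain ⟨s, hs, hms⟩ := Geometry.SimplicialComplex.mem_space_iff.1 (φ.symm m).2
    have small : ∀ u : Finset (EuclideanSpace ℝ (Fin N)), u ⊆ s → u.card ≤ 1 →
        (φ.symm m : EuclideanSpace ℝ (Fin N)) ∉ convexHull ℝ (u : Set _) := by
      intro u hus hu hmem
      rcases u.eq_empty_or_nonempty with rfl | ⟨x, hx⟩
      · simp at hmem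
      · have : u = {x} := Finset.eq_singleton_iff_unique_mem.2
          ⟨hx, fun y hy => Finset.card_le_one.1 hu y hy x hx⟩
        subst this
        simp only [Finset.coe_singleton, convexHull_singleton, mem_singleton_iff] at hmem
        exact hm ⟨s, hs, hmem ▸ hus hx⟩
    have hs2 : 2 ≤ s.card := by
      by_contra h
      exact small s subset_rfl (by omega) hms
    have hother : ∀ s' ∈ K.faces \ {s}, m ∉ σ s' := by
      rintro s' ⟨hs', hne⟩ ⟨p, hp, hpm⟩
      have hp' : (φ.symm m : EuclideanSpace ℝ (Fin N)) ∈ convexHull ℝ (s' : Set _) := by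
        rw [← hpm, Homeomorph.symm_apply_apply]; exact hp
      have h1 := K.inter_subset_convexHull hs hs' ⟨hms, hp'⟩
      rw [← Finset.coe_inter] at h1
      refine small (s ∩ s') Finset.inter_subset_left ?_ h1
      by_contra h
      have h2 := (hK s hs).1
      have h3 := (hK s' hs').1
      have e1 : s ∩ s' = s := Finset.eq_of_subset_of_card_le Finset.inter_subset_left (by omega)
      have e2 : s ∩ s' = s' := Finset.eq_of_subset_of_card_le Finset.inter_subset_right (by omega)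
      exact hne (e2.symm.trans e1)
    have hcl : IsClosed (⋃ s' ∈ K.faces \ {s}, σ s') :=
      (hfin.subset sdiff_subset).isClosed_biUnion fun s' _ => hσc s'
    obtain ⟨ρ, hρ, hball⟩ := Metric.isOpen_iff.1 hcl.isOpen_compl m (by
      simp only [mem_compl_iff, mem_iUnion, not_exists]
      exact hother)
    obtain ⟨f, hf⟩ := hf s hs
    refine ⟨ball m (ρ / 3), f, mem_ball_self (by linarith), fun _ => ball_mem_nhds _ (by linarith),
      hf m (ρ / 3) fun x hx => ?_⟩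
    rw [mul_div_cancel₀ _ (by norm_num)] at hx
    obtain ⟨s', hs', hxs⟩ := Geometry.SimplicialComplex.mem_space_iff.1 (φ.symm x).2
    have hx' : x ∈ σ s' := ⟨φ.symm x, hxs, φ.apply_symm_apply x⟩
    by_cases h : s' = s
    · exact h ▸ hx'
    · exact absurd (mem_iUnion₂.2 ⟨s', ⟨hs', h⟩, hx'⟩) (hball hx)
  choose U f hU1 hU2 hU3 using hloc
  have : SecondCountableTopology M := φ.symm.isEmbedding.secondCountableTopology
  obtain ⟨T, -, hTc, hT⟩ := TopologicalSpace.countable_cover_nhdsWithin (f := U) (s := Wᶜ)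
    fun x hx => mem_nhdsWithin_of_mem_nhds (hU2 x hx)
  have : Countable (↥(T ∪ W)) := (hTc.union hW.countable).to_subtype
  refine ⟨↥(T ∪ W), inferInstance, fun i => U i, fun i => f i, fun m => ?_, fun i => hU3 i⟩
  by_cases hm : m ∈ W
  · exact ⟨⟨m, Or.inr hm⟩, hU1 m⟩
  · obtain ⟨x, hx, hmx⟩ := mem_iUnion₂.1 (hT hm)
    exact ⟨⟨x, Or.inl hx⟩, hmx⟩

theorem Holes.not_proMinkowski (H : Holes) : ¬ IsProMinkowski (Intr H.X H.qconvex) 1 := by
  classical
  rintro ⟨hcpt, M, _, f, hM, hf, e, he⟩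
  let F : ℕ → Intr H.X H.qconvex × Intr H.X H.qconvex → ℝ :=
    fun n p => dist ((e p.1).1 n) ((e p.2).1 n)
  have hmono : Monotone F := by
    refine monotone_nat_of_le_succ fun n p => ?_
    have := (hf n).dist_le_mul ((e p.1).1 (n + 1)) ((e p.2).1 (n + 1))
    rw [(e p.1).2 n, (e p.2).2 n] at this
    simpa [F] using this
  have hle : ∀ n x y, dist ((e x).1 n) ((e y).1 n) ≤ dist x y := fun n x y =>
    (hmono.apply₂ (x, y)).ge_of_tendsto (he x y) n
  have hc : ∀ n, Continuous fun x => (e x).1 n := fun n =>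
    (LipschitzWith.of_dist_le_mul (K := 1) fun x y => by simpa using hle n x y).continuous
  have hunif := Monotone.tendstoUniformly_of_forall_tendsto (F := F)
    (f := fun p => dist p.1 p.2)
    (fun n => ((hc n).comp continuous_fst).dist ((hc n).comp continuous_snd)) hmono
    continuous_dist fun p => he p.1 p.2
  obtain ⟨n, hn⟩ := (Metric.tendstoUniformly_iff.1 hunif (1 / 10) (by norm_num)).exists
  obtain ⟨ι, _, σ, g, hcov, hg⟩ := polyhedron_cover (hM n)
  have h0 : ((0, 0) : ℝ × ℝ) ∈ H.X := ⟨by simp, by simp, fun k hk => by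
    have h1 := (H.in1 k hk).1
    have h2 := le_abs_self (H.c1 k)
    simp only [zero_sub, abs_neg]
    linarith [abs_nonneg (H.c2 k)]⟩
  let π : ℝ × ℝ → M n := fun p =>
    (e (toIntr H.qconvex (if h : p ∈ H.X then ⟨p, h⟩ else ⟨(0, 0), h0⟩))).1 n
  have hπ : ∀ a (ha : a ∈ H.X), π a = (e (toIntr H.qconvex ⟨a, ha⟩)).1 n := by
    intro a ha; simp only [π, dif_pos ha]
  refine H.no_short_map π 3 ?_ ?_ ?_ σ g hcov hg
  · intro a ha b hb
    rw [hπ a ha, hπ b hb]
    exact (hle n _ _).trans ((lip_toIntr H.qconvex).dist_le_mul _ _)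
  · intro a b hab
    have ha : a ∈ H.X := hab (left_mem_segment ℝ a b)
    have hb : b ∈ H.X := hab (right_mem_segment ℝ a b)
    rw [hπ a ha, hπ b hb]
    refine (hle n _ _).trans ?_
    have := ilen_le_of_segment (X := H.X) ⟨a, ha⟩ ⟨b, hb⟩ hab
    rw [← edist_toIntr H.qconvex, edist_dist, edist_dist,
      ENNReal.ofReal_le_ofReal_iff dist_nonneg] at this
    exact this
  · intro a ha b hb
    rw [hπ a ha, hπ b hb]
    have h1 := hn (toIntr H.qconvex ⟨a, ha⟩, toIntr H.qconvex ⟨b, hb⟩)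
    have h2 := (lip_toIntr_symm H.qconvex).dist_le_mul (toIntr H.qconvex ⟨a, ha⟩)
      (toIntr H.qconvex ⟨b, hb⟩)
    simp only [Equiv.symm_apply_apply, NNReal.coe_one, one_mul, Subtype.dist_eq] at h2
    rw [Real.dist_eq, abs_lt] at h1
    simp only [F] at h1
    linarith [h1.2]

theorem counterexample : ∃ (X : Type) (_ : MetricSpace X), CompactSpace X ∧ IsLengthSpace X ∧
    HasCoveringDim X 1 ∧ ¬ IsProMinkowski X 1 := by
  obtain ⟨H, hH⟩ := exists_holes
  have : CompactSpace H.X := isCompact_iff_compactSpace.1 H.isCompact_X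
  have hX : ∀ b : ℝ, b = 0 ∨ b = 1 → ((0, b) : ℝ × ℝ) ∈ H.X := by
    intro b hb
    refine ⟨by simp, by rcases hb with rfl | rfl <;> simp, fun k hk => ?_⟩
    have h1 := (H.in1 k hk).1
    have h2 := le_abs_self (H.c1 k)
    simp only [zero_sub, abs_neg]
    linarith [abs_nonneg (b - H.c2 k)]
  have hpc : PathConnectedSpace H.X := by
    refine ⟨⟨⟨_, hX 0 (Or.inl rfl)⟩⟩, fun x y => ?_⟩
    by_contra hcon
    have : IsEmpty (Path x y) := not_nonempty_iff.1 hcon
    exact H.qconvex.ne_top x y (by simp [ilen])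
  have hdim : CoveringDimLE H.X 1 := coveringDimLE_one H.isCompact_X hH fun p hp => ⟨hp.1, hp.2.1⟩
  have hne : (⟨_, hX 0 (Or.inl rfl)⟩ : H.X) ≠ ⟨_, hX 1 (Or.inr rfl)⟩ := by
    intro h
    simpa using congrArg (fun z : H.X => z.1.2) h
  have hzero : ¬ CoveringDimLE H.X 0 := not_coveringDimLE_zero hne
  have htop : (inferInstance : TopologicalSpace (Intr H.X H.qconvex)) =
      (inferInstance : TopologicalSpace H.X) :=
    le_antisymm (continuous_id_iff_le.1 (lip_toIntr_symm H.qconvex).continuous)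
      (continuous_id_iff_le.1 (lip_toIntr H.qconvex).continuous)
  refine ⟨Intr H.X H.qconvex, inferInstance, (homeoIntr H.qconvex).compactSpace,
    isLengthSpace_intr _, ⟨⟨toIntr _ ⟨_, hX 0 (Or.inl rfl)⟩⟩, ?_, ?_⟩, H.not_proMinkowski⟩
  · change @CoveringDimLE H.X (inferInstance : TopologicalSpace (Intr H.X H.qconvex)) 1
    rw [htop]; exact hdim
  · intro e he
    obtain rfl : e = 0 := by omega
    change ¬ @CoveringDimLE H.X (inferInstance : TopologicalSpace (Intr H.X H.qconvex)) 0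
    rw [htop]; exact hzero

end Pool.Agent.H543Z.PM
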